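import Pool.Agent.Lib.MP_0d9445_pr.PPP.Moments

/-!
A random set whose numbers of points in disjoint sets are conditionally independent Poisson
variables is conditionally a Poisson process in the mixed binomial sense.
-/

open MeasureTheory ProbabilityTheory Set
open scoped ENNReal NNReal

noncomputable section

namespace Pool.Agent.Lib.MP_0d9445_pr.PPP

variable {α G Ω Ω' : Type*} [MeasurableSpace α] [MeasurableSpace G] [MeasurableSpace Ω]
  [MeasurableSpace Ω']

namespace Bridge

omit [MeasurableSpace α] in
/-- the number of points in a set is the sum over the atoms -/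
theorem ncard_eq_sum_atoms {κ : Type*} [Fintype κ] [DecidableEq κ] {s : Set α} (hs : s.Finite)
    (v : α → κ) (T : Finset κ) :
    (s ∩ {x | v x ∈ T}).ncard = ∑ t ∈ T, (s ∩ v ⁻¹' {t}).ncard := by
  classical
  have h1 : (s ∩ {x | v x ∈ T}).ncard = (hs.toFinset.filter fun x => v x ∈ T).card := by
    rw [← ncard_coe_finset]
    congr 1
    ext x
    simp
  rw [h1, Finset.card_eq_sum_card_fiberwise (f := v) (t := T) fun x hx => by
    simpa using (Finset.mem_filter.1 (Finset.mem_coe.1 hx)).2]
  refine Finset.sum_congr rfl fun t ht => ?_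
  rw [← ncard_coe_finset]
  congr 1
  ext x
  simp only [Finset.coe_filter, Finset.mem_filter, Finite.mem_toFinset, mem_ofPred_eq,
    mem_inter_iff, mem_preimage, mem_singleton_iff]
  exact ⟨fun h => ⟨h.1.1, h.2⟩, fun h => ⟨⟨h.1, h.2 ▸ ht⟩, h.2⟩⟩

/-- The joint law of the counts in any countable family of sets is determined by the joint laws
of the counts in finite disjoint families. -/
theorem map_counts_eq {μ : Measure Ω} {ν : Measure Ω'} [IsFiniteMeasure μ] {Y : Ω → Set α}
    {Y' : Ω' → Set α} (hY : ∀ᵐ ω ∂μ, (Y ω).Finite) (hY' : ∀ᵐ ω ∂ν, (Y' ω).Finite)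
    (hm : ∀ A, MeasurableSet A → Measurable fun ω => (Y ω ∩ A).ncard)
    (hm' : ∀ A, MeasurableSet A → Measurable fun ω => (Y' ω ∩ A).ncard)
    (H : ∀ (k : ℕ) (A : Fin k → Set α) (n : Fin k → ℕ), (∀ i, MeasurableSet (A i)) →
      Pairwise (Function.onFun Disjoint A) →
      μ {ω | ∀ i, (Y ω ∩ A i).ncard = n i} = ν {ω | ∀ i, (Y' ω ∩ A i).ncard = n i})
    {ι : Type*} {B : ι → Set α} (hB : ∀ j, MeasurableSet (B j)) :
    μ.map (fun ω j => (Y ω ∩ B j).ncard) = ν.map fun ω j => (Y' ω ∩ B j).ncard := by
  classical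
  have hC : Measurable fun ω j => (Y ω ∩ B j).ncard := measurable_pi_lambda _ fun j => hm _ (hB j)
  have hC' : Measurable fun ω j => (Y' ω ∩ B j).ncard :=
    measurable_pi_lambda _ fun j => hm' _ (hB j)
  have key : ∀ (J : Finset ι) (S : Set (J → ℕ)), MeasurableSet S →
      μ.map (fun ω j => (Y ω ∩ B j).ncard) (cylinder J S) =
        ν.map (fun ω j => (Y' ω ∩ B j).ncard) (cylinder J S) := by
    intro J S hS
    let v : α → (J → Bool) := fun x j => decide (x ∈ B j)
    have hv : Measurable v := measurable_pi_lambda _ fun j =>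
      (measurable_from_top (f := fun p : Prop => decide p)).comp (hB j).mem
    let A : (J → Bool) → Set α := fun t => v ⁻¹' {t}
    have hA : ∀ t, MeasurableSet (A t) := fun t => hv (measurableSet_singleton t)
    have hD : Measurable fun ω t => (Y ω ∩ A t).ncard := measurable_pi_lambda _ fun t => hm _ (hA t)
    have hD' : Measurable fun ω t => (Y' ω ∩ A t).ncard :=
      measurable_pi_lambda _ fun t => hm' _ (hA t)
    have h1 : μ.map (fun ω t => (Y ω ∩ A t).ncard) = ν.map fun ω t => (Y' ω ∩ A t).ncard := by
      refine Measure.ext_of_singleton fun n => ?_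
      rw [Measure.map_apply hD (measurableSet_singleton n),
        Measure.map_apply hD' (measurableSet_singleton n)]
      let e := (Fintype.equivFin (J → Bool)).symm
      have h2 := H _ (fun i => A (e i)) (fun i => n (e i)) (fun i => hA _) fun i j hij =>
        Disjoint.preimage v (disjoint_singleton.2 fun h => hij (e.injective h))
      convert h2 using 2
      · ext ω
        simp only [mem_preimage, mem_singleton_iff, funext_iff, mem_ofPred_eq]
        exact e.forall_congr_right.symm
      · ext ω
        simp only [mem_preimage, mem_singleton_iff, funext_iff, mem_ofPred_eq]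
        exact e.forall_congr_right.symm
    let Φ : ((J → Bool) → ℕ) → (J → ℕ) := fun n j =>
      ∑ t ∈ Finset.univ.filter fun t : J → Bool => t j = true, n t
    have hΦ : Measurable Φ := measurable_of_countable Φ
    have h3 : ∀ s : Set α, s.Finite →
        (fun j : J => (s ∩ B j).ncard) = Φ fun t => (s ∩ A t).ncard := fun s hs => by
      funext j
      rw [show B j = {x | v x ∈ Finset.univ.filter fun t : J → Bool => t j = true} from by
        ext x
        simp [v]]
      exact ncard_eq_sum_atoms hs v _
    have hc : MeasurableSet (cylinder (α := fun _ : ι => ℕ) J S) := hS.cylinder J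
    rw [Measure.map_apply hC hc, Measure.map_apply hC' hc]
    calc _ = μ ((fun ω t => (Y ω ∩ A t).ncard) ⁻¹' (Φ ⁻¹' S)) := by
          refine measure_congr ?_
          filter_upwards [hY] with ω hω
          exact congrArg (· ∈ S) (h3 _ hω)
      _ = ν ((fun ω t => (Y' ω ∩ A t).ncard) ⁻¹' (Φ ⁻¹' S)) := by
          rw [← Measure.map_apply hD (hΦ hS), ← Measure.map_apply hD' (hΦ hS), h1]
      _ = _ := by
          refine measure_congr ?_
          filter_upwards [hY'] with ω hω
          exact (congrArg (· ∈ S) (h3 _ hω)).symm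
  refine ext_of_generate_finite _ generateFrom_measurableCylinders.symm
    isPiSystem_measurableCylinders (fun s hs => ?_) ?_
  · obtain ⟨J, S, hS, rfl⟩ := (mem_measurableCylinders s).1 hs
    exact key J S hS
  · simpa using key ∅ univ MeasurableSet.univ

/-- order statistics of a finite set of reals through counts at rational levels -/
theorem iInf_level (Z : Finset ℝ) (k : Fin Z.card) :
    (⨅ q : ℚ, if (k : ℕ) + 1 ≤ ((Z : Set ℝ) ∩ Iic (q : ℝ)).ncard then ((q : ℝ) : EReal) else ⊤) =
      (Z.orderEmbOfFin rfl k : ℝ) := by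
  classical
  set z := Z.orderEmbOfFin rfl with hz
  have h1 : ∀ x : ℝ, ((Z : Set ℝ) ∩ Iic x).ncard =
      (Finset.univ.filter fun i => z i ≤ x).card := fun x => by
    rw [← ncard_coe_finset, ← ncard_image_of_injective _ z.injective]
    congr 1
    ext y
    simp only [mem_inter_iff, mem_Iic, Finset.coe_filter, Finset.mem_univ, true_and, mem_image,
      mem_ofPred_eq]
    rw [← Z.range_orderEmbOfFin rfl]
    exact ⟨fun ⟨⟨i, hi⟩, h⟩ => ⟨i, hi ▸ h, hi⟩, fun ⟨i, h, hi⟩ => ⟨⟨i, hi⟩, hi ▸ h⟩⟩
  have h2 : ∀ x : ℝ, (k : ℕ) + 1 ≤ ((Z : Set ℝ) ∩ Iic x).ncard ↔ z k ≤ x := fun x => by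
    rw [h1]
    constructor
    · intro h
      by_contra hx
      have : (Finset.univ.filter fun i => z i ≤ x) ⊆ Finset.Iio k := fun i hi => by
        rw [Finset.mem_Iio, ← z.lt_iff_lt]
        exact (Finset.mem_filter.1 hi).2.trans_lt (not_le.1 hx)
      have := Finset.card_le_card this
      rw [Fin.card_Iio] at this
      omega
    · intro h
      rw [← Fin.card_Iic]
      refine Finset.card_le_card fun i hi => Finset.mem_filter.2 ⟨Finset.mem_univ _, ?_⟩
      exact (z.monotone (Finset.mem_Iic.1 hi)).trans h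
  simp only [h2]
  refine le_antisymm ?_ (le_iInf fun q => ?_)
  · refine le_of_forall_gt_imp_ge_of_dense fun y hy => ?_
    obtain ⟨q, hq1, hq2⟩ := EReal.exists_rat_btwn_of_lt hy
    refine (iInf_le _ q).trans ?_
    rw [if_pos (EReal.coe_lt_coe_iff.1 hq1).le]
    exact hq2.le
  · split_ifs with h
    · exact EReal.coe_le_coe_iff.2 h
    · exact le_top

/-- A finite set is a measurable function of its counts in a fixed countable family of sets. -/
theorem exists_select (α : Type*) [MeasurableSpace α] [StandardBorelSpace α] [Nonempty α] :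
    ∃ (B : Option ℚ → Set α) (Ψ : (Option ℚ → ℕ) → Conf α), (∀ j, MeasurableSet (B j)) ∧
      Measurable Ψ ∧ ∀ s : Set α, s.Finite → pts (Ψ fun j => (s ∩ B j).ncard) = s := by
  classical
  have he := measurableEmbedding_embeddingReal α
  set e := embeddingReal α
  let t : ℕ → (Option ℚ → ℕ) → ℝ := fun k c =>
    (⨅ q : ℚ, if k + 1 ≤ c (some q) then ((q : ℝ) : EReal) else ⊤).toReal
  have ht : ∀ k, Measurable (t k) := fun k =>
    measurable_ereal_toReal.comp (Measurable.iInf fun q =>
      (measurable_from_top (f := fun n : ℕ => if k + 1 ≤ n then ((q : ℝ) : EReal) else ⊤)).comp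
        (measurable_pi_apply (some q)))
  let F : ℕ × (Option ℚ → ℕ) → Conf α := fun p => mk p.1 fun k => he.invFun (t k p.2)
  have hF : Measurable F := measurable_from_prod_countable_right fun n =>
    (measurable_mk n).comp (measurable_pi_lambda _ fun k => he.measurable_invFun.comp (ht k))
  refine ⟨fun j => j.elim univ fun q => e ⁻¹' Iic (q : ℝ), fun c => F (c none, c), fun j => ?_,
    hF.comp ((measurable_pi_apply none).prodMk measurable_id), fun s hs => ?_⟩
  · cases j with
    | none => exact MeasurableSet.univ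
    | some q => exact he.measurable measurableSet_Iic
  · set Z := (hs.image e).toFinset with hZ
    have hZc : (Z : Set ℝ) = e '' s := Finite.coe_toFinset _
    have h1 : (s ∩ univ).ncard = Z.card := by
      rw [inter_univ, ← ncard_coe_finset, hZc, ncard_image_of_injective _ he.injective]
    have h2 : ∀ x : ℝ, (s ∩ e ⁻¹' Iic x).ncard = ((Z : Set ℝ) ∩ Iic x).ncard := fun x => by
      rw [hZc, ← image_inter_preimage, ncard_image_of_injective _ he.injective]
    have h3 : ∀ n, n = Z.card → ∀ c : Option ℚ → ℕ,
        (∀ q : ℚ, c (some q) = ((Z : Set ℝ) ∩ Iic (q : ℝ)).ncard) → pts (F (n, c)) = s := by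
      rintro n rfl c hc
      have h4 : ∀ k : Fin Z.card, t k c = Z.orderEmbOfFin rfl k := fun k => by
        simp only [t, hc]
        rw [iInf_level Z k, EReal.toReal_coe]
      change range (fun k : Fin Z.card => he.invFun (t k c)) = s
      simp only [h4]
      rw [show (fun k : Fin Z.card => he.invFun (Z.orderEmbOfFin rfl k)) =
        he.invFun ∘ Z.orderEmbOfFin rfl from rfl, range_comp, Z.range_orderEmbOfFin, hZc,
        he.leftInverse_invFun.image_image]
    exact h3 _ h1 _ fun q => h2 q

omit [MeasurableSpace α] in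
theorem measurable_ncard_of_encard {Y : Ω → Set α}
    (h : ∀ n : ℕ, MeasurableSet {ω | (Y ω).encard = n}) : Measurable fun ω => (Y ω).ncard := by
  have h1 : ∀ n : ℕ, n ≠ 0 → (fun ω => (Y ω).ncard) ⁻¹' {n} = {ω | (Y ω).encard = n} := by
    intro n hn
    ext ω
    simp only [mem_preimage, mem_singleton_iff, mem_ofPred_eq]
    constructor
    · intro h
      rw [← (finite_of_ncard_ne_zero (h ▸ hn)).cast_ncard_eq, h]
    · intro h
      rw [ncard_def, h, ENat.toNat_natCast]
  refine measurable_to_countable' fun n => ?_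
  by_cases hn : n = 0
  · have : (fun ω => (Y ω).ncard) ⁻¹' {n} = (⋃ k : ℕ, (fun ω => (Y ω).ncard) ⁻¹' {k + 1})ᶜ := by
      ext ω
      simp only [mem_preimage, mem_singleton_iff, mem_compl_iff, mem_iUnion, not_exists, hn]
      exact ⟨fun h k => by omega, fun h => by
        by_contra h'
        exact h ((Y ω).ncard - 1) (by omega)⟩
    rw [this]
    exact (MeasurableSet.iUnion fun k => h1 _ k.succ_ne_zero ▸ h (k + 1)).compl
  · exact h1 n hn ▸ h n

end Bridge

open Bridge in
/-- Conditionally independent Poisson counts give the mixed binomial formula. -/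
theorem isCox_of_counts [StandardBorelSpace α] [Nonempty α] {P : Measure Ω} [IsFiniteMeasure P]
    {h : Ω → G} (hh : Measurable h) {m : G → Measure α} (hm : Measurable m) {Y : Ω → Set α}
    (hfin : ∀ᵐ ω ∂P, m (h ω) univ ≠ ∞) (hat : ∀ᵐ ω ∂P, NullSingletonClass (m (h ω)))
    (H : ∀ (k : ℕ) (A : Fin k → Set α) (n : Fin k → ℕ) (E : Set G), (∀ i, MeasurableSet (A i)) →
      Pairwise (Function.onFun Disjoint A) → MeasurableSet E →
      MeasurableSet {ω | ∀ i, (Y ω ∩ A i).encard = n i} ∧
      P ({ω | h ω ∈ E} ∩ {ω | ∀ i, (Y ω ∩ A i).encard = n i}) =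
        ∫⁻ ω in {ω | h ω ∈ E}, ∏ i, wt (m (h ω) (A i)) (n i) * m (h ω) (A i) ^ n i ∂P) :
    IsCox P h m Y := by
  have : MeasurableEq α := by
    let := upgradeStandardBorel α
    infer_instance
  have H1 := fun (A : Set α) (hA : MeasurableSet A) (n : ℕ) =>
    H 1 (fun _ => A) (fun _ => n) univ (fun _ => hA) (Subsingleton.pairwise) MeasurableSet.univ
  simp only [forall_const, mem_univ, ofPred_true, univ_inter, Measure.restrict_univ,
    Finset.univ_unique, Finset.prod_singleton] at H1
  have hmY : ∀ A, MeasurableSet A → Measurable fun ω => (Y ω ∩ A).ncard := fun A hA =>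
    measurable_ncard_of_encard fun n => (H1 A hA n).1
  have hY : ∀ᵐ ω ∂P, (Y ω).Finite := by
    have h1 := H1 univ MeasurableSet.univ
    simp only [inter_univ] at h1
    have h2 : P (⋃ n : ℕ, {ω | (Y ω).encard = n}) = P univ := by
      rw [measure_iUnion (fun i j hij => disjoint_left.2 fun ω a b =>
        hij (Nat.cast_injective (R := ℕ∞) (a.symm.trans b))) fun n => (h1 n).1]
      simp_rw [fun n => (h1 n).2]
      have hu : Measurable fun ω => m (h ω) univ :=
        (Measure.measurable_coe MeasurableSet.univ).comp (hm.comp hh)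
      rw [← lintegral_tsum (f := fun n ω => wt (m (h ω) univ) n * m (h ω) univ ^ n) fun n =>
        (((measurable_wt n).comp hu).mul (hu.pow_const n)).aemeasurable, ← lintegral_one]
      refine lintegral_congr_ae ?_
      filter_upwards [hfin] with ω hω
      exact tsum_wt_mul_pow_self hω
    have h3 := (ae_iff_measure_eq (p := fun ω => ω ∈ ⋃ n : ℕ, {ω | (Y ω).encard = n})
      (MeasurableSet.iUnion fun n => (h1 n).1).nullMeasurableSet).2 h2
    filter_upwards [h3] with ω hω
    obtain ⟨n, hn⟩ := mem_iUnion.1 hω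
    exact finite_of_encard_eq_coe hn
  obtain ⟨B, Ψ, hB, hΨ, hsel⟩ := exists_select α
  have hm' : Measurable fun g => finOr (m g) := measurable_finOr.comp hm
  have hf' : ∀ g, IsFiniteMeasure (finOr (m g)) := fun g => inferInstance
  set ν := annealed (P.map h) (fun g => finOr (m g)) hm' hf' with hν
  have hmC : ∀ A, MeasurableSet A → Measurable fun p : G × Conf α => (pts p.2 ∩ A).ncard :=
    fun A hA => (meas_ncard hA).comp measurable_snd
  have hC : Measurable fun ω j => (Y ω ∩ B j).ncard := measurable_pi_lambda _ fun j => hmY _ (hB j)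
  have hC' : Measurable fun (p : G × Conf α) j => (pts p.2 ∩ B j).ncard :=
    measurable_pi_lambda _ fun j => hmC _ (hB j)
  have hlaw : P.map (fun ω => (h ω, fun j => (Y ω ∩ B j).ncard)) =
      ν.map fun p => (p.1, fun j => (pts p.2 ∩ B j).ncard) := by
    refine Measure.ext_prod fun {E S} hE hS => ?_
    have key := map_counts_eq (μ := P.restrict {ω | h ω ∈ E}) (ν := ν.restrict (E ×ˢ univ))
      (Y' := fun p => pts p.2) (ae_restrict_of_ae hY) (ae_of_all _ fun p => pts_finite p.2)
      hmY hmC (fun k A n hA hd => ?_) hB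
    · have := congrArg (· S) key
      simp only [Measure.map_apply hC hS, Measure.map_apply hC' hS,
        Measure.restrict_apply (hC hS), Measure.restrict_apply (hC' hS)] at this
      rw [Measure.map_apply (hh.prodMk hC) (hE.prod hS),
        Measure.map_apply (measurable_fst.prodMk hC') (hE.prod hS)]
      convert this using 2
      · ext ω
        simp [and_comm]
      · ext p
        simp [and_comm]
    · obtain ⟨k1, k2⟩ := H k A n E hA hd hE
      have hT : MeasurableSet {c : Conf α | ∀ i, (pts c ∩ A i).ncard = n i} := by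
        rw [ofPred_forall]
        exact MeasurableSet.iInter fun i => measurableSet_ncard_eq (hA i) _
      have e1 : P.restrict {ω | h ω ∈ E} {ω | ∀ i, (Y ω ∩ A i).ncard = n i} =
          P.restrict {ω | h ω ∈ E} {ω | ∀ i, (Y ω ∩ A i).encard = n i} := by
        refine measure_congr ?_
        filter_upwards [ae_restrict_of_ae hY] with ω hω
        refine propext (forall_congr' fun i => ?_)
        rw [← (hω.inter_of_left (A i)).cast_ncard_eq, Nat.cast_inj]
      have e2 : {p : G × Conf α | ∀ i, (pts p.2 ∩ A i).ncard = n i} ∩ E ×ˢ univ =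
          E ×ˢ {c : Conf α | ∀ i, (pts c ∩ A i).ncard = n i} := by
        ext p
        simp [and_comm]
      rw [e1, Measure.restrict_apply k1, inter_comm, k2,
        Measure.restrict_apply' (hE.prod MeasurableSet.univ), e2, hν, annealed,
        Measure.compProd_apply_prod hE hT, setLIntegral_map hE (Kernel.measurable_coe _ hT) hh]
      refine lintegral_congr_ae ?_
      filter_upwards [ae_restrict_of_ae hfin, ae_restrict_of_ae hat] with ω h1 h2
      have : IsFiniteMeasure (m (h ω)) := ⟨h1.lt_top⟩
      have h3 := ppp_ncard_joint (m (h ω)) Finset.univ (D := A) (fun i _ => hA i)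
        (fun i _ j _ hij => hd hij) n
      simp only [Finset.mem_univ, forall_const] at h3
      rw [pppK_apply, finOr_eq, h3]
  intro F hF
  have hF' : Measurable fun p : G × Conf α => F p.1 (pts p.2) := measurable_prod_conf hF
  have hF'' : Measurable fun p : G × (Option ℚ → ℕ) => F p.1 (pts (Ψ p.2)) :=
    hF'.comp (measurable_fst.prodMk (hΨ.comp measurable_snd))
  have e1 : (fun ω => F (h ω) (Y ω)) =ᵐ[P]
      fun ω => F (h ω) (pts (Ψ fun j => (Y ω ∩ B j).ncard)) := by
    filter_upwards [hY] with ω hω
    rw [hsel _ hω]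
  refine ⟨(hF''.comp (hh.prodMk hC)).aemeasurable.congr e1.symm, ?_⟩
  calc ∫⁻ ω, F (h ω) (Y ω) ∂P
      = ∫⁻ p, F p.1 (pts (Ψ p.2)) ∂P.map fun ω => (h ω, fun j => (Y ω ∩ B j).ncard) := by
        rw [lintegral_congr_ae e1, lintegral_map hF'' (hh.prodMk hC)]
    _ = ∫⁻ p, F p.1 (pts p.2) ∂ν := by
        rw [hlaw, lintegral_map hF'' (measurable_fst.prodMk hC')]
        exact lintegral_congr fun p => by rw [hsel _ (pts_finite p.2)]
    _ = ∫⁻ ω, ∫⁻ c, F (h ω) (pts c) ∂ppp (finOr (m (h ω))) ∂P := by
        rw [hν, lintegral_annealed _ hm' hf' hF',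
          lintegral_map (measurable_lintegral_ppp hm' hf' hF') hh]
    _ = _ := by
        refine lintegral_congr_ae ?_
        filter_upwards [hfin] with ω hω
        rw [finOr_of_ne_top hω]
        exact lintegral_ppp_pts _ _

end Pool.Agent.Lib.MP_0d9445_pr.PPP
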