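import Pool.Agent.Lib.MP_0d9445_pr.Defs
import Pool.Agent.Lib.MP_0d9445_pr.PPP.Bridge

/-!
The Poisson points of the statement, seen in a bounded window, are conditionally a mixed binomial
Poisson process.
-/

open MeasureTheory ProbabilityTheory Set
open scoped ENNReal NNReal

noncomputable section

namespace Pool.Agent.Lib.MP_0d9445_pr

open PPP

variable {Ω : Type} [MeasurableSpace Ω]

/-- the intensity `l • m` restricted to the window `W`, as a function of the surface -/
def winInt (l : ℝ≥0) (W : Set ℂ) (g : Met × Measure ℂ) : Measure ℂ :=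
  ((l : ℝ≥0∞) • g.2).restrict W

theorem measurable_winInt (l : ℝ≥0) {W : Set ℂ} (hW : MeasurableSet W) :
    Measurable (winInt l W) :=
  (measurable_restrict hW).comp ((measurable_smul_measure l).comp measurable_snd)

theorem winInt_apply (l : ℝ≥0) (W : Set ℂ) (g : Met × Measure ℂ) {A : Set ℂ}
    (hA : MeasurableSet A) : winInt l W g A = l * g.2 (A ∩ W) := by
  rw [winInt, Measure.restrict_apply hA, Measure.smul_apply, smul_eq_mul]

theorem IsPPP.isCox {P : Measure Ω} [IsFiniteMeasure P] {d : Ω → Met} {m : Ω → Measure ℂ}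
    {l : ℝ≥0} {Y : Ω → Set ℂ} (hY : IsPPP P d m l Y) (hd : Measurable d) (hm : Measurable m)
    {W : Set ℂ} (hW : MeasurableSet W) (hb : Bornology.IsBounded W)
    (hfin : ∀ᵐ ω ∂P, m ω W ≠ ∞) (hat : ∀ᵐ ω ∂P, ∀ z ∈ W, m ω {z} = 0) :
    IsCox P (fun ω => (d ω, m ω)) (winInt l W) fun ω => Y ω ∩ W := by
  refine isCox_of_counts (hd.prodMk hm) (measurable_winInt l hW) ?_ ?_ fun k A n E hA hD hE => ?_
  · filter_upwards [hfin] with ω hω
    rw [winInt_apply _ _ _ MeasurableSet.univ, univ_inter]
    exact ENNReal.mul_ne_top ENNReal.coe_ne_top hω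
  · filter_upwards [hat] with ω hω
    refine ⟨fun z => ?_⟩
    rw [winInt_apply _ _ _ (measurableSet_singleton z)]
    by_cases hz : z ∈ W
    · rw [measure_mono_null inter_subset_left (hω z hz), mul_zero]
    · rw [singleton_inter_eq_empty.2 hz, measure_empty, mul_zero]
  · obtain ⟨h1, h2⟩ := hY k (fun i => A i ∩ W) n E (fun i => (hA i).inter hW)
      (fun i => hb.subset inter_subset_right)
      (fun i j hij => (hD hij).mono inter_subset_left inter_subset_left) hE
    have e : ∀ ω i, Y ω ∩ W ∩ A i = Y ω ∩ (A i ∩ W) := fun ω i => by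
      rw [inter_assoc, inter_comm W]
    simp only [e]
    refine ⟨h1, h2.trans (lintegral_congr_ae ?_)⟩
    filter_upwards [ae_restrict_of_ae hfin] with ω hω
    refine Finset.prod_congr rfl fun i _ => ?_
    rw [poissonMeasure_eq_wt, winInt_apply _ _ _ (hA i), ENNReal.coe_mul,
      ENNReal.coe_toNNReal (ne_top_of_le_ne_top hω (measure_mono inter_subset_right))]

end Pool.Agent.Lib.MP_0d9445_pr
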