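import Pool.Agent.Lib.MP_0d9445_pr.PPP.Transfer

/-!
The Poisson process as a kernel on all intensities, the exact law of the numbers of points in
disjoint sets, and moment bounds.
-/

open MeasureTheory ProbabilityTheory Set
open scoped ENNReal NNReal Nat

noncomputable section

namespace Pool.Agent.Lib.MP_0d9445_pr.PPP

variable {α G : Type*} [MeasurableSpace α] [MeasurableSpace G]

/-- `m` if it is finite, else `0` -/
def finOr (m : Measure α) : Measure α := if m univ < ∞ then m else 0

theorem finOr_of_ne_top {m : Measure α} (h : m univ ≠ ∞) : finOr m = m := if_pos h.lt_top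

theorem finOr_eq (m : Measure α) [IsFiniteMeasure m] : finOr m = m :=
  finOr_of_ne_top (measure_ne_top _ _)

instance (m : Measure α) : IsFiniteMeasure (finOr m) := by
  unfold finOr
  split_ifs with h
  · exact ⟨h⟩
  · infer_instance

theorem finOr_le (m : Measure α) : finOr m ≤ m := by
  unfold finOr
  split_ifs
  · exact le_rfl
  · exact Measure.zero_le _

theorem measurable_finOr : Measurable (finOr : Measure α → Measure α) :=
  Measurable.ite (measurableSet_lt (Measure.measurable_coe MeasurableSet.univ) measurable_const)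
    measurable_id measurable_const

/-- the Poisson process as a Markov kernel on all intensities (empty if the mass is infinite) -/
def pppU : Kernel (Measure α) (Conf α) := pppK finOr measurable_finOr fun _ => inferInstance

instance : IsMarkovKernel (pppU : Kernel (Measure α) (Conf α)) := by
  unfold pppU
  infer_instance

theorem pppU_apply (m : Measure α) : pppU m = ppp (finOr m) := rfl

theorem pppU_apply_of_finite (m : Measure α) [IsFiniteMeasure m] : pppU m = ppp m := by
  rw [pppU_apply, finOr_eq]

theorem measurable_restrict {W : Set α} (hW : MeasurableSet W) :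
    Measurable fun m : Measure α => m.restrict W := by
  refine Measure.measurable_of_measurable_coe _ fun s hs => ?_
  simp_rw [Measure.restrict_apply hs]
  exact Measure.measurable_coe (hs.inter hW)

theorem measurable_smul_measure (l : ℝ≥0∞) : Measurable fun m : Measure α => l • m := by
  refine Measure.measurable_of_measurable_coe _ fun s hs => ?_
  simp_rw [Measure.smul_apply, smul_eq_mul]
  exact (Measure.measurable_coe hs).const_mul l

/-- the Poisson weights in terms of `poissonMeasure` -/
theorem poissonMeasure_eq_wt (r : ℝ≥0) (n : ℕ) :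
    poissonMeasure r {n} = wt r n * (r : ℝ≥0∞) ^ n := by
  rw [poissonMeasure_singleton, wt, ENNReal.ofReal_div_of_pos (by positivity),
    ENNReal.ofReal_mul (Real.exp_pos _).le, ENNReal.ofReal_pow r.coe_nonneg,
    ENNReal.ofReal_coe_nnreal, ENNReal.ofReal_natCast, ENNReal.coe_toReal, div_eq_mul_inv,
    div_eq_mul_inv]
  ring

theorem tsum_wt_mul_pow_self {a : ℝ≥0∞} (ha : a ≠ ∞) : ∑' n, wt a n * a ^ n = 1 := by
  rw [tsum_wt_mul_pow a a ha]
  simp

theorem measurableSet_ncard_eq [MeasurableEq α] {D : Set α} (hD : MeasurableSet D) (n : ℕ) :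
    MeasurableSet {c : Conf α | (pts c ∩ D).ncard = n} :=
  (meas_ncard hD) (measurableSet_singleton n)

theorem meas_indicator_ncard [MeasurableEq α] (n : ℕ) :
    Meas fun s : Set α => if s.ncard = n then (1 : ℝ≥0∞) else 0 := by
  have h : Meas fun s : Set α => if (s ∩ univ).ncard = n then (1 : ℝ≥0∞) else 0 :=
    (measurable_from_top (f := fun k : ℕ => if k = n then (1 : ℝ≥0∞) else 0)).comp
      (meas_ncard MeasurableSet.univ)
  simpa only [inter_univ] using h

theorem lintegral_ite_ncard [MeasurableEq α] (m : Measure α) [IsFiniteMeasure m]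
    [NullSingletonClass m] {D : Set α} (hD : MeasurableSet D) (n : ℕ) :
    ∫⁻ c, (if (pts c ∩ D).ncard = n then (1 : ℝ≥0∞) else 0) ∂ppp m = wt (m D) n * m D ^ n := by
  rw [lintegral_ppp_restrict m hD (meas_indicator_ncard n)]
  have h1 : ∫⁻ c, (if (pts c).ncard = n then (1 : ℝ≥0∞) else 0) ∂ppp (m.restrict D) =
      ∫⁻ c, (if c.1 = n then (1 : ℝ≥0∞) else 0) ∂ppp (m.restrict D) := by
    refine lintegral_congr_ae ?_
    filter_upwards [ae_injective (m.restrict D)] with c hc
    have : (pts c).ncard = c.1 := by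
      rw [pts, ← image_univ, ncard_image_of_injective _ hc, ncard_univ, Nat.card_eq_fintype_card,
        Fintype.card_fin]
    rw [this]
  rw [h1, lintegral_ppp, tsum_eq_single n]
  · simp [Measure.pi_univ]
  · intro k hk
    simp [hk]

/-- the number of points in a set is Poisson -/
theorem ppp_ncard_eq [MeasurableEq α] (m : Measure α) [IsFiniteMeasure m] [NullSingletonClass m]
    {D : Set α} (hD : MeasurableSet D) (n : ℕ) :
    ppp m {c | (pts c ∩ D).ncard = n} = wt (m D) n * m D ^ n := by
  rw [← lintegral_ite_ncard m hD n, ← lintegral_indicator_one (measurableSet_ncard_eq hD n)]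
  refine lintegral_congr fun c => ?_
  simp only [indicator, mem_ofPred_eq, Pi.one_apply]

/-- the joint law of the numbers of points in disjoint sets -/
theorem ppp_ncard_joint [MeasurableEq α] (m : Measure α) [IsFiniteMeasure m]
    [NullSingletonClass m] {ι : Type*} (I : Finset ι) {D : ι → Set α}
    (hD : ∀ i ∈ I, MeasurableSet (D i)) (hd : (I : Set ι).PairwiseDisjoint D) (n : ι → ℕ) :
    ppp m {c | ∀ i ∈ I, (pts c ∩ D i).ncard = n i} =
      ∏ i ∈ I, wt (m (D i)) (n i) * m (D i) ^ n i := by
  classical
  have hs : MeasurableSet {c : Conf α | ∀ i ∈ I, (pts c ∩ D i).ncard = n i} := by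
    have : {c : Conf α | ∀ i ∈ I, (pts c ∩ D i).ncard = n i} =
        ⋂ i ∈ I, {c | (pts c ∩ D i).ncard = n i} := by
      ext c
      simp
    rw [this]
    exact I.measurableSet_biInter fun i hi => measurableSet_ncard_eq (hD i hi) _
  have h := lintegral_ppp_prod m I hD hd
    (F := fun i s => if s.ncard = n i then (1 : ℝ≥0∞) else 0) fun i _ => meas_indicator_ncard _
  rw [← Finset.prod_congr rfl fun i hi => lintegral_ite_ncard m (hD i hi) (n i), ← h,
    ← lintegral_indicator_one hs]
  refine lintegral_congr fun c => ?_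
  rw [Finset.prod_boole]
  simp only [indicator, mem_ofPred_eq, Pi.one_apply]

theorem pow_le_descFactorial (s N : ℕ) (hN : 2 ≤ N) :
    N ^ s ≤ (2 * s) ^ s * N.descFactorial 2 + 2 ^ s * N.descFactorial s := by
  rcases le_total N (2 * s) with h | h
  · have h1 : 1 ≤ N.descFactorial 2 := Nat.descFactorial_pos.2 hN
    calc N ^ s ≤ (2 * s) ^ s * 1 := by rw [mul_one]; exact Nat.pow_le_pow_left h s
      _ ≤ (2 * s) ^ s * N.descFactorial 2 := Nat.mul_le_mul_left _ h1
      _ ≤ _ := Nat.le_add_right _ _
  · calc N ^ s ≤ (2 * (N + 1 - s)) ^ s := Nat.pow_le_pow_left (by omega) s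
      _ = 2 ^ s * (N + 1 - s) ^ s := mul_pow _ _ _
      _ ≤ 2 ^ s * N.descFactorial s := Nat.mul_le_mul_left _ (Nat.pow_sub_le_descFactorial N s)
      _ ≤ _ := Nat.le_add_left _ _

/-- moments on the event of at least two points -/
theorem lintegral_pow_two_le [MeasurableEq α] (m : Measure α) [IsFiniteMeasure m] {A : Set α}
    (hA : MeasurableSet A) (s : ℕ) :
    ∫⁻ c, (if 2 ≤ (pts c ∩ A).ncard then ((pts c ∩ A).ncard : ℝ≥0∞) ^ s else 0) ∂ppp m ≤
      (2 * s) ^ s * m A ^ 2 + 2 ^ s * m A ^ s := by
  have hM : ∀ r : ℕ, Measurable fun c : Conf α =>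
      (((pts c ∩ A).ncard.descFactorial r : ℕ) : ℝ≥0∞) := fun r =>
    (measurable_from_top (f := fun k : ℕ => ((k.descFactorial r : ℕ) : ℝ≥0∞))).comp
      (meas_ncard hA)
  calc _ ≤ ∫⁻ c, (2 * s) ^ s * (((pts c ∩ A).ncard.descFactorial 2 : ℕ) : ℝ≥0∞) +
        2 ^ s * (((pts c ∩ A).ncard.descFactorial s : ℕ) : ℝ≥0∞) ∂ppp m := by
        refine lintegral_mono fun c => ?_
        dsimp only
        split_ifs with h
        · exact_mod_cast pow_le_descFactorial s _ h
        · exact zero_le
    _ ≤ _ := by
        rw [lintegral_add_left ((hM 2).const_mul _), lintegral_const_mul _ (hM 2),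
          lintegral_const_mul _ (hM s)]
        gcongr
        · exact lintegral_descFactorial_le m hA 2
        · exact lintegral_descFactorial_le m hA s

/-- all moments -/
theorem lintegral_pow_le [MeasurableEq α] (m : Measure α) [IsFiniteMeasure m] {A : Set α}
    (hA : MeasurableSet A) {s : ℕ} (hs : s ≠ 0) :
    ∫⁻ c, ((pts c ∩ A).ncard : ℝ≥0∞) ^ s ∂ppp m ≤
      m A + ((2 * s) ^ s * m A ^ 2 + 2 ^ s * m A ^ s) := by
  have hM : Measurable fun c : Conf α => ((pts c ∩ A).ncard : ℝ≥0∞) :=
    (measurable_from_top (f := fun k : ℕ => (k : ℝ≥0∞))).comp (meas_ncard hA)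
  calc _ ≤ ∫⁻ c, ((pts c ∩ A).ncard : ℝ≥0∞) +
        (if 2 ≤ (pts c ∩ A).ncard then ((pts c ∩ A).ncard : ℝ≥0∞) ^ s else 0) ∂ppp m := by
        refine lintegral_mono fun c => ?_
        dsimp only
        split_ifs with h
        · exact le_add_self
        · rcases (by omega : (pts c ∩ A).ncard = 0 ∨ (pts c ∩ A).ncard = 1) with h | h
          · simp [h, hs]
          · simp [h]
    _ ≤ _ := by
        rw [lintegral_add_left hM]
        exact add_le_add (lintegral_ncard_le m hA) (lintegral_pow_two_le m hA s)

/-- the second moment -/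
theorem lintegral_sq_le [MeasurableEq α] (m : Measure α) [IsFiniteMeasure m] {A : Set α}
    (hA : MeasurableSet A) :
    ∫⁻ c, ((pts c ∩ A).ncard : ℝ≥0∞) ^ 2 ∂ppp m ≤ m A + m A ^ 2 := by
  have hM : Measurable fun c : Conf α => ((pts c ∩ A).ncard : ℝ≥0∞) :=
    (measurable_from_top (f := fun k : ℕ => (k : ℝ≥0∞))).comp (meas_ncard hA)
  calc _ = ∫⁻ c, ((pts c ∩ A).ncard : ℝ≥0∞) +
        (((pts c ∩ A).ncard.descFactorial 2 : ℕ) : ℝ≥0∞) ∂ppp m := by
        refine lintegral_congr fun c => ?_
        generalize (pts c ∩ A).ncard = N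
        have : N ^ 2 = N + N.descFactorial 2 := by
          cases N with
          | zero => simp
          | succ k => simp [Nat.descFactorial]; ring
        exact_mod_cast this
    _ ≤ _ := by
        rw [lintegral_add_left hM]
        exact add_le_add (lintegral_ncard_le m hA) (lintegral_descFactorial_le m hA 2)

end Pool.Agent.Lib.MP_0d9445_pr.PPP
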