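import Pool.Agent.Lib.MP_0d9445_pr.PPP.Count

/-!
From a random set that is conditionally Poisson (mixed binomial formula for all jointly measurable
functions) to the annealed law on labelled configurations, for arbitrary events.
-/

open MeasureTheory ProbabilityTheory Set
open scoped ENNReal Nat

noncomputable section

namespace Pool.Agent.Lib.MP_0d9445_pr.PPP

variable {α G Ω : Type*} [MeasurableSpace α] [MeasurableSpace G] [MeasurableSpace Ω]

/-- given `h`, the random set `Y` is a Poisson process with finite intensity `m ∘ h` -/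
def IsCox (P : Measure Ω) (h : Ω → G) (m : G → Measure α) (Y : Ω → Set α) : Prop :=
  ∀ F : G → Set α → ℝ≥0∞,
    (∀ n, Measurable fun p : G × (Fin n → α) => F p.1 (range p.2)) →
      AEMeasurable (fun ω => F (h ω) (Y ω)) P ∧
      ∫⁻ ω, F (h ω) (Y ω) ∂P = ∫⁻ ω, ∑' n, wt (m (h ω) univ) n *
        ∫⁻ x, F (h ω) (range x) ∂(Measure.pi fun _ : Fin n => m (h ω)) ∂P

theorem IsCox.aemeasurable {P : Measure Ω} {h : Ω → G} {m : G → Measure α} {Y : Ω → Set α}
    (hY : IsCox P h m Y) {F : G → Set α → ℝ≥0∞}
    (hF : Measurable fun p : G × Conf α => F p.1 (pts p.2)) :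
    AEMeasurable (fun ω => F (h ω) (Y ω)) P :=
  (hY F fun n => hF.comp (f := fun p : G × (Fin n → α) => (p.1, mk n p.2))
    (measurable_fst.prodMk ((measurable_mk n).comp measurable_snd))).1

theorem IsCox.lintegral_eq {P : Measure Ω} {h : Ω → G} {m : G → Measure α} {Y : Ω → Set α}
    (hY : IsCox P h m Y) {F : G → Set α → ℝ≥0∞}
    (hF : Measurable fun p : G × Conf α => F p.1 (pts p.2)) :
    ∫⁻ ω, F (h ω) (Y ω) ∂P = ∫⁻ ω, ∫⁻ c, F (h ω) (pts c) ∂ppp (m (h ω)) ∂P := by
  rw [(hY F fun n => hF.comp (f := fun p : G × (Fin n → α) => (p.1, mk n p.2))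
    (measurable_fst.prodMk ((measurable_mk n).comp measurable_snd))).2]
  exact lintegral_congr fun ω => (lintegral_ppp_pts _ _).symm

/-- real-valued jointly measurable functions are a.e. measurable along the pair of `h` and `Y` -/
theorem IsCox.aemeasurable_real {P : Measure Ω} {h : Ω → G} {m : G → Measure α}
    {Y : Ω → Set α} (hY : IsCox P h m Y) {F : G → Set α → ℝ}
    (hF : Measurable fun p : G × Conf α => F p.1 (pts p.2)) :
    AEMeasurable (fun ω => F (h ω) (Y ω)) P := by
  have h1 := hY.aemeasurable (F := fun g s => ENNReal.ofReal (F g s)) hF.ennreal_ofReal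
  have h2 := hY.aemeasurable (F := fun g s => ENNReal.ofReal (-F g s)) hF.neg.ennreal_ofReal
  convert h1.ennreal_toReal.sub h2.ennreal_toReal using 2 with ω
  simp only [Pi.sub_apply]
  rw [ENNReal.toReal_ofReal', ENNReal.toReal_ofReal', max_zero_sub_max_neg_zero_eq_self]

theorem IsCox.ae_finite {P : Measure Ω} {h : Ω → G} {m : G → Measure α} {Y : Ω → Set α}
    (hY : IsCox P h m Y) : ∀ᵐ ω ∂P, (Y ω).Finite := by
  have e : ∀ c : Conf α, {s : Set α | ¬ s.Finite}.indicator (1 : Set α → ℝ≥0∞) (pts c) = 0 :=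
    fun c => indicator_of_notMem (s := {s : Set α | ¬ s.Finite})
      (fun hc => (show ¬ (pts c).Finite from hc) (pts_finite c)) _
  have hF : Measurable fun p : G × Conf α =>
      {s : Set α | ¬ s.Finite}.indicator (1 : Set α → ℝ≥0∞) (pts p.2) := by
    simp only [e]
    exact measurable_const
  have h1 := hY.lintegral_eq (F := fun _ s => {s : Set α | ¬ s.Finite}.indicator 1 s) hF
  simp only [e, lintegral_zero] at h1
  have h2 := (lintegral_eq_zero_iff' (hY.aemeasurable
    (F := fun _ s => {s : Set α | ¬ s.Finite}.indicator 1 s) hF)).1 h1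
  filter_upwards [h2] with ω hω
  by_contra hc
  have h3 : Y ω ∈ {s : Set α | ¬ s.Finite} := hc
  rw [indicator_of_mem h3] at hω
  exact one_ne_zero hω

/-- the annealed law on parameters and labelled configurations -/
def annealed (Q : Measure G) (m : G → Measure α) (hm : Measurable m)
    (hf : ∀ g, IsFiniteMeasure (m g)) : Measure (G × Conf α) := Q.compProd (pppK m hm hf)

instance (Q : Measure G) [IsProbabilityMeasure Q] (m : G → Measure α) (hm : Measurable m)
    (hf : ∀ g, IsFiniteMeasure (m g)) : IsProbabilityMeasure (annealed Q m hm hf) := by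
  unfold annealed
  infer_instance

theorem lintegral_annealed (Q : Measure G) [SFinite Q] {m : G → Measure α} (hm : Measurable m)
    (hf : ∀ g, IsFiniteMeasure (m g)) {f : G × Conf α → ℝ≥0∞} (h : Measurable f) :
    ∫⁻ p, f p ∂annealed Q m hm hf = ∫⁻ g, ∫⁻ c, f (g, c) ∂ppp (m g) ∂Q :=
  Measure.lintegral_compProd h

theorem IsCox.lintegral_eq_annealed {P : Measure Ω} [SFinite P] {h : Ω → G}
    (hh : AEMeasurable h P) {m : G → Measure α} (hm : Measurable m)
    (hf : ∀ g, IsFiniteMeasure (m g)) {Y : Ω → Set α} (hY : IsCox P h m Y)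
    {F : G → Set α → ℝ≥0∞} (hF : Measurable fun p : G × Conf α => F p.1 (pts p.2)) :
    ∫⁻ ω, F (h ω) (Y ω) ∂P = ∫⁻ p, F p.1 (pts p.2) ∂annealed (P.map h) m hm hf := by
  rw [hY.lintegral_eq hF, lintegral_annealed _ hm hf hF,
    lintegral_map' (measurable_lintegral_ppp hm hf hF).aemeasurable hh]

/-- the symmetric part of a measurable set of labelled configurations is measurable -/
theorem measurableSet_symm [MeasurableEq α] {E : Set (G × Conf α)} (hE : MeasurableSet E) :
    MeasurableSet {p : G × Conf α | ∀ c : Conf α, pts c = pts p.2 → (p.1, c) ∈ E} := by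
  refine measurableSet_setOfPred.2 (measurable_prod_conf fun n => ?_)
  have e : (fun p : G × (Fin n → α) =>
      ∀ c : Conf α, pts c = pts (⟨n, p.2⟩ : Conf α) → (p.1, c) ∈ E) =
      fun p => ∀ (k : ℕ) (σ : Fin k → Fin n), (∀ i, ∃ j, p.2 (σ j) = p.2 i) →
        (p.1, mk k fun j => p.2 (σ j)) ∈ E := by
    funext p
    refine propext ⟨fun H k σ hσ => H _ ?_, fun H c hc => ?_⟩
    · refine subset_antisymm ?_ ?_
      · rintro _ ⟨j, rfl⟩
        exact ⟨σ j, rfl⟩
      · rintro _ ⟨i, rfl⟩
        exact hσ i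
    · obtain ⟨k, y⟩ := c
      have h1 : ∀ j, ∃ i, p.2 i = y j := fun j =>
        (show y j ∈ pts (⟨n, p.2⟩ : Conf α) from hc ▸ ⟨j, rfl⟩)
      choose σ hσ using h1
      have h2 := H k σ fun i => by
        obtain ⟨j, hj⟩ : p.2 i ∈ pts (⟨k, y⟩ : Conf α) := hc ▸ ⟨i, rfl⟩
        exact ⟨j, (hσ j).trans hj⟩
      simp only [hσ] at h2
      exact h2
  rw [e]
  refine Measurable.forall fun k => Measurable.forall fun σ => Measurable.imp ?_ ?_
  · exact Measurable.forall fun i => Measurable.exists fun j =>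
      ((measurable_pi_apply (σ j)).comp measurable_snd).eq
        ((measurable_pi_apply i).comp measurable_snd)
  · refine measurableSet_setOfPred.1 ((show Measurable fun p : G × (Fin n → α) =>
      (p.1, (mk k fun j => p.2 (σ j) : Conf α)) from ?_) hE)
    exact measurable_fst.prodMk ((measurable_mk k).comp (measurable_pi_lambda _ fun j =>
      (measurable_pi_apply (σ j)).comp measurable_snd))

/-- transfer of an arbitrary (not necessarily measurable) event -/
theorem IsCox.measure_le [MeasurableEq α] {P : Measure Ω} [SFinite P] {h : Ω → G}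
    (hh : AEMeasurable h P) {m : G → Measure α} (hm : Measurable m)
    (hf : ∀ g, IsFiniteMeasure (m g)) {Y : Ω → Set α} (hY : IsCox P h m Y)
    (E : G → Set α → Prop) :
    P {ω | E (h ω) (Y ω)} ≤ annealed (P.map h) m hm hf {p | E p.1 (pts p.2)} := by
  set ν := annealed (P.map h) m hm hf
  set E' := toMeasurable ν {p | E p.1 (pts p.2)} with hE'
  have hm' : MeasurableSet E' := measurableSet_toMeasurable _ _
  set F : G → Set α → ℝ≥0∞ := fun g s =>
    {s : Set α | ∀ c : Conf α, pts c = s → (g, c) ∈ E'}.indicator 1 s with hFdef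
  have hF : Measurable fun p : G × Conf α => F p.1 (pts p.2) :=
    measurable_one.indicator (measurableSet_symm hm')
  calc P {ω | E (h ω) (Y ω)} ≤ P {ω | 1 ≤ F (h ω) (Y ω)} := by
        refine measure_mono fun ω hω => ?_
        have h1 : Y ω ∈ {s : Set α | ∀ c : Conf α, pts c = s → (h ω, c) ∈ E'} :=
          fun c hc => subset_toMeasurable _ _ (by
            show E (h ω) (pts c)
            rw [hc]
            exact hω)
        show 1 ≤ F (h ω) (Y ω)
        simp only [hFdef, indicator_of_mem h1, Pi.one_apply, le_refl]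
    _ ≤ ∫⁻ ω, F (h ω) (Y ω) ∂P := by
        simpa using mul_meas_ge_le_lintegral₀ (hY.aemeasurable hF) 1
    _ = ∫⁻ p, F p.1 (pts p.2) ∂ν := hY.lintegral_eq_annealed hh hm hf hF
    _ ≤ ∫⁻ p, E'.indicator 1 p ∂ν := by
        refine lintegral_mono fun p => ?_
        by_cases hp : pts p.2 ∈ {s : Set α | ∀ c : Conf α, pts c = s → (p.1, c) ∈ E'}
        · rw [indicator_of_mem (hp p.2 rfl)]
          simp only [hFdef, indicator_of_mem hp, Pi.one_apply, le_refl]
        · simp only [hFdef, indicator_of_notMem hp, zero_le]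
    _ = ν {p | E p.1 (pts p.2)} := by rw [lintegral_indicator_one hm', measure_toMeasurable]

end Pool.Agent.Lib.MP_0d9445_pr.PPP
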