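import Mathlib

/-!
Finite Poisson point processes as mixed binomial processes: labelled configurations, the measure
`ppp m`, its integral formula, and measurable dependence on the intensity.
-/

open MeasureTheory ProbabilityTheory Set
open scoped ENNReal Nat

noncomputable section

namespace Pool.Agent.Lib.MP_0d9445_pr.PPP

/-- labelled finite configurations -/
abbrev Conf (α : Type*) := Σ n : ℕ, (Fin n → α)

/-- the configuration with `n` labelled points -/
abbrev mk {α : Type*} (n : ℕ) (x : Fin n → α) : Conf α := ⟨n, x⟩

/-- the set of points of a configuration -/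
def pts {α : Type*} (c : Conf α) : Set α := range c.2

/-- the weight `exp (-a) / n!` -/
def wt (a : ℝ≥0∞) (n : ℕ) : ℝ≥0∞ := ENNReal.ofReal (Real.exp (-a.toReal)) / (n ! : ℝ≥0∞)

variable {α β G : Type*} [MeasurableSpace α] [MeasurableSpace β] [MeasurableSpace G]

/-- the Poisson point process with finite intensity `m` (mixed binomial form) -/
def ppp (m : Measure α) : Measure (Conf α) :=
  Measure.sum fun n => wt (m univ) n • (Measure.pi fun _ : Fin n => m).map (mk n)

omit [MeasurableSpace α] in
theorem pts_finite (c : Conf α) : (pts c).Finite := finite_range _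

theorem measurable_mk (n : ℕ) : Measurable (mk n : (Fin n → α) → Conf α) := by
  intro s hs
  exact (MeasurableSpace.measurableSet_iInf.1 hs) n

theorem measurableSet_conf {s : Set (Conf α)} :
    MeasurableSet s ↔ ∀ n, MeasurableSet ((mk n : (Fin n → α) → Conf α) ⁻¹' s) :=
  MeasurableSpace.measurableSet_iInf

theorem measurable_conf {f : Conf α → β} :
    Measurable f ↔ ∀ n, Measurable fun x : Fin n → α => f ⟨n, x⟩ :=
  ⟨fun h n => h.comp (measurable_mk n), fun h _ hs => measurableSet_conf.2 fun n => h n hs⟩

theorem measurableEmbedding_mk (n : ℕ) :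
    MeasurableEmbedding (mk n : (Fin n → α) → Conf α) := by
  have hi : Function.Injective (mk n : (Fin n → α) → Conf α) :=
    sigma_mk_injective (β := fun n : ℕ => Fin n → α)
  refine ⟨hi, measurable_mk n, fun s hs => measurableSet_conf.2 fun k => ?_⟩
  by_cases h : k = n
  · subst h
    rwa [preimage_image_eq _ hi]
  · convert MeasurableSet.empty
    ext x
    simp only [mem_preimage, mem_image, mem_empty_iff_false, iff_false, not_exists, not_and]
    intro y _ hy
    exact h (congrArg Sigma.fst hy).symm

/-- joint measurability in a parameter and a configuration is checked length by length -/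
theorem measurable_prod_conf {f : G × Conf α → β}
    (h : ∀ n, Measurable fun p : G × (Fin n → α) => f (p.1, ⟨n, p.2⟩)) : Measurable f := by
  intro s hs
  have e : f ⁻¹' s = ⋃ n, (Prod.map id (mk n)) ''
      ((fun p : G × (Fin n → α) => f (p.1, ⟨n, p.2⟩)) ⁻¹' s) := by
    ext ⟨g, n, x⟩
    simp only [mem_preimage, mem_iUnion, mem_image]
    constructor
    · intro hx
      exact ⟨n, (g, x), hx, rfl⟩
    · rintro ⟨k, ⟨g', y⟩, hy, e⟩
      simp only [Prod.map, id] at e
      rw [← e]
      exact hy
  rw [e]
  exact MeasurableSet.iUnion fun n =>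
    (MeasurableEmbedding.id.prodMap (measurableEmbedding_mk n)).measurableSet_image' (h n hs)

theorem measurable_conf_prod {f : Conf α × G → β}
    (h : ∀ n, Measurable fun p : (Fin n → α) × G => f (⟨n, p.1⟩, p.2)) : Measurable f := by
  have h1 : Measurable fun p : G × Conf α => f (p.2, p.1) :=
    measurable_prod_conf fun n => (h n).comp measurable_swap
  exact h1.comp measurable_swap

theorem measurable_len : Measurable fun c : Conf α => c.1 :=
  measurable_conf.2 fun _ => measurable_const

theorem lintegral_ppp (m : Measure α) (f : Conf α → ℝ≥0∞) :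
    ∫⁻ c, f c ∂ppp m =
      ∑' n, wt (m univ) n * ∫⁻ x, f ⟨n, x⟩ ∂(Measure.pi fun _ : Fin n => m) := by
  rw [ppp, lintegral_sum_measure]
  refine tsum_congr fun n => ?_
  rw [lintegral_smul_measure, (measurableEmbedding_mk n).lintegral_map, smul_eq_mul]

theorem ppp_apply (m : Measure α) {s : Set (Conf α)} (hs : MeasurableSet s) :
    ppp m s = ∑' n, wt (m univ) n * (Measure.pi fun _ : Fin n => m) (mk n ⁻¹' s) := by
  rw [ppp, Measure.sum_apply _ hs]
  refine tsum_congr fun n => ?_
  rw [Measure.smul_apply, Measure.map_apply (measurable_mk n) hs, smul_eq_mul]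

/-- the exponential series in `ℝ≥0∞` -/
theorem tsum_pow_div (a : ℝ≥0∞) (ha : a ≠ ∞) :
    ∑' n : ℕ, a ^ n / (n ! : ℝ≥0∞) = ENNReal.ofReal (Real.exp a.toReal) := by
  have h := NormedSpace.expSeries_div_hasSum_exp a.toReal
  rw [← Real.exp_eq_exp_ℝ] at h
  rw [← h.tsum_eq, ENNReal.ofReal_tsum_of_nonneg (fun n => by positivity) h.summable]
  refine tsum_congr fun n => ?_
  rw [ENNReal.ofReal_div_of_pos (by positivity), ENNReal.ofReal_pow ENNReal.toReal_nonneg,
    ENNReal.ofReal_toReal ha, ENNReal.ofReal_natCast]

theorem tsum_wt_mul_pow (a b : ℝ≥0∞) (hb : b ≠ ∞) :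
    ∑' n, wt a n * b ^ n = ENNReal.ofReal (Real.exp (b.toReal - a.toReal)) := by
  have e : ∀ n, wt a n * b ^ n =
      ENNReal.ofReal (Real.exp (-a.toReal)) * (b ^ n / (n ! : ℝ≥0∞)) := fun n => by
    rw [wt, div_eq_mul_inv, div_eq_mul_inv]
    ring
  simp_rw [e]
  rw [ENNReal.tsum_mul_left, tsum_pow_div b hb, ← ENNReal.ofReal_mul (Real.exp_pos _).le,
    ← Real.exp_add]
  congr 2
  ring

instance (m : Measure α) [IsFiniteMeasure m] : IsProbabilityMeasure (ppp m) := by
  refine ⟨?_⟩
  rw [ppp_apply m MeasurableSet.univ]
  simp only [preimage_univ, Measure.pi_univ, Finset.prod_const, Finset.card_univ,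
    Fintype.card_fin]
  rw [tsum_wt_mul_pow _ _ (measure_ne_top m _)]
  simp

theorem measurable_wt (n : ℕ) : Measurable fun a => wt a n := by
  unfold wt
  exact (ENNReal.measurable_ofReal.comp
    (Real.measurable_exp.comp ENNReal.measurable_toReal.neg)).div_const _

theorem measurable_pi_pow {m : G → Measure α} (hm : Measurable m)
    (hf : ∀ g, IsFiniteMeasure (m g)) (n : ℕ) :
    Measurable fun g => Measure.pi fun _ : Fin n => m g := by
  refine Measure.measurable_of_measurable_coe _ fun s hs => ?_
  induction s, hs using MeasurableSpace.induction_on_inter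
    (generateFrom_pi (α := fun _ : Fin n => α)).symm isPiSystem_pi with
  | empty => simp
  | basic s hs =>
    obtain ⟨t, ht, rfl⟩ := hs
    simp_rw [Measure.pi_pi]
    exact Finset.measurable_prod _ fun i _ =>
      (Measure.measurable_coe (ht i (mem_univ i))).comp hm
  | compl s hs ih =>
    simp_rw [measure_compl hs (measure_ne_top _ _), Measure.pi_univ]
    exact (Finset.measurable_prod _ fun i _ =>
      (Measure.measurable_coe MeasurableSet.univ).comp hm).sub ih
  | iUnion f hd hf' ih =>
    simp_rw [measure_iUnion hd hf']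
    exact Measurable.tsum ih

theorem measurable_ppp {m : G → Measure α} (hm : Measurable m)
    (hf : ∀ g, IsFiniteMeasure (m g)) : Measurable fun g => ppp (m g) := by
  refine Measure.measurable_of_measurable_coe _ fun s hs => ?_
  simp_rw [ppp_apply _ hs]
  refine Measurable.tsum fun n => ?_
  exact ((measurable_wt n).comp ((Measure.measurable_coe MeasurableSet.univ).comp hm)).mul
    ((Measure.measurable_coe (measurable_mk n hs)).comp (measurable_pi_pow hm hf n))

/-- the Poisson process with a random finite intensity, as a Markov kernel -/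
def pppK (m : G → Measure α) (hm : Measurable m) (hf : ∀ g, IsFiniteMeasure (m g)) :
    Kernel G (Conf α) := ⟨fun g => ppp (m g), measurable_ppp hm hf⟩

@[simp] theorem pppK_apply (m : G → Measure α) (hm : Measurable m)
    (hf : ∀ g, IsFiniteMeasure (m g)) (g : G) : pppK m hm hf g = ppp (m g) := rfl

instance (m : G → Measure α) (hm : Measurable m) (hf : ∀ g, IsFiniteMeasure (m g)) :
    IsMarkovKernel (pppK m hm hf) :=
  ⟨fun g => by have := hf g; rw [pppK_apply]; infer_instance⟩

/-- the Poisson expectation of a jointly measurable function is measurable in the parameter -/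
theorem measurable_lintegral_ppp {m : G → Measure α} (hm : Measurable m)
    (hf : ∀ g, IsFiniteMeasure (m g)) {f : G × Conf α → ℝ≥0∞} (h : Measurable f) :
    Measurable fun g => ∫⁻ c, f (g, c) ∂ppp (m g) :=
  Measurable.lintegral_kernel_prod_right' (κ := pppK m hm hf) h

end Pool.Agent.Lib.MP_0d9445_pr.PPP
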