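import Pool.Agent.Lib.MP_0d9445_pr.PPP.Super

/-!
Restriction, independence over disjoint sets, mapping and void probabilities for Poisson point
processes.
-/

open MeasureTheory ProbabilityTheory Set
open scoped ENNReal Nat

noncomputable section

namespace Pool.Agent.Lib.MP_0d9445_pr.PPP

variable {α β γ G : Type*} [MeasurableSpace α] [MeasurableSpace β] [MeasurableSpace γ]
  [MeasurableSpace G]

theorem measurableSet_pts_subset {W : Set α} (hW : MeasurableSet W) :
    MeasurableSet {c : Conf α | pts c ⊆ W} := by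
  refine measurableSet_conf.2 fun n => ?_
  have e : (mk n : (Fin n → α) → Conf α) ⁻¹' {c : Conf α | pts c ⊆ W} =
      Set.pi univ fun _ => W := by
    ext x
    simp [pts, range_subset_iff]
  rw [e]
  exact MeasurableSet.univ_pi fun _ => hW

theorem meas_subset {W : Set α} (hW : MeasurableSet W) :
    Meas fun s : Set α => (s ⊆ W) := measurableSet_setOfPred.1 (measurableSet_pts_subset hW)

/-- the probability that all points lie in `W` -/
theorem ppp_pts_subset (m : Measure α) [IsFiniteMeasure m] {W : Set α} (hW : MeasurableSet W) :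
    ppp m {c | pts c ⊆ W} = ENNReal.ofReal (Real.exp (-(m Wᶜ).toReal)) := by
  rw [ppp_apply m (measurableSet_pts_subset hW)]
  have e : ∀ n, (mk n : (Fin n → α) → Conf α) ⁻¹' {c : Conf α | pts c ⊆ W} =
      Set.pi univ fun _ => W := by
    intro n
    ext x
    simp [pts, range_subset_iff]
  simp only [e, Measure.pi_pi, Finset.prod_const, Finset.card_univ, Fintype.card_fin]
  rw [tsum_wt_mul_pow _ _ (measure_ne_top m _), ← measure_add_measure_compl hW (μ := m),
    ENNReal.toReal_add (measure_ne_top _ _) (measure_ne_top _ _)]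
  congr 2
  ring

/-- void probability -/
theorem ppp_void (m : Measure α) [IsFiniteMeasure m] {A : Set α} (hA : MeasurableSet A) :
    ppp m {c | pts c ∩ A = ∅} = ENNReal.ofReal (Real.exp (-(m A).toReal)) := by
  have h := ppp_pts_subset m hA.compl
  rw [compl_compl] at h
  rw [← h]
  congr 1
  ext c
  simp only [mem_ofPred_eq, subset_compl_iff_disjoint_right, disjoint_iff_inter_eq_empty]

theorem measurableSet_void {A : Set α} (hA : MeasurableSet A) :
    MeasurableSet {c : Conf α | pts c ∩ A = ∅} := by
  convert measurableSet_pts_subset hA.compl using 1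
  ext c
  simp only [mem_ofPred_eq, subset_compl_iff_disjoint_right, disjoint_iff_inter_eq_empty]

theorem ae_pts_subset (m : Measure α) [IsFiniteMeasure m] {W : Set α} (hW : MeasurableSet W)
    (h0 : m Wᶜ = 0) : ∀ᵐ c ∂ppp m, pts c ⊆ W := by
  rw [ae_iff]
  have h := ppp_pts_subset m hW
  rw [h0] at h
  exact (prob_compl_eq_zero_iff (measurableSet_pts_subset hW)).2 (by simpa using h)

theorem ae_pts_subset_restrict (m : Measure α) [IsFiniteMeasure m] {W : Set α}
    (hW : MeasurableSet W) : ∀ᵐ c ∂ppp (m.restrict W), pts c ⊆ W :=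
  ae_pts_subset _ hW (by rw [Measure.restrict_apply hW.compl]; simp)

/-- splitting along a measurable set -/
theorem lintegral_ppp_split (m : Measure α) [IsFiniteMeasure m] {W : Set α}
    (hW : MeasurableSet W) {F : Set α → Set α → ℝ≥0∞}
    (hF : Measurable fun p : Conf α × Conf α => F (pts p.1) (pts p.2)) :
    ∫⁻ c, F (pts c ∩ W) (pts c ∩ Wᶜ) ∂ppp m =
      ∫⁻ c, ∫⁻ d, F (pts c) (pts d) ∂ppp (m.restrict Wᶜ) ∂ppp (m.restrict W) := by
  have hM : Meas fun s => F (s ∩ W) (s ∩ Wᶜ) := by
    have := hF.comp ((measurable_filt hW).prodMk (measurable_filt hW.compl))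
    simpa [Meas, Function.comp_def] using this
  have h := lintegral_ppp_add (m.restrict W) (m.restrict Wᶜ) hM
  rw [Measure.restrict_add_restrict_compl hW] at h
  rw [h]
  refine lintegral_congr_ae ?_
  filter_upwards [ae_pts_subset_restrict m hW] with c hc
  refine lintegral_congr_ae ?_
  filter_upwards [ae_pts_subset_restrict m hW.compl] with d hd
  have e1 : (pts c ∪ pts d) ∩ W = pts c := by
    ext z
    exact ⟨fun h => h.1.resolve_right fun h' => hd h' h.2, fun h => ⟨Or.inl h, hc h⟩⟩
  have e2 : (pts c ∪ pts d) ∩ Wᶜ = pts d := by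
    ext z
    exact ⟨fun h => h.1.resolve_left fun h' => h.2 (hc h'), fun h => ⟨Or.inr h, hd h⟩⟩
  rw [e1, e2]

/-- restriction -/
theorem lintegral_ppp_restrict (m : Measure α) [IsFiniteMeasure m] {W : Set α}
    (hW : MeasurableSet W) {F : Set α → ℝ≥0∞} (hF : Meas F) :
    ∫⁻ c, F (pts c ∩ W) ∂ppp m = ∫⁻ c, F (pts c) ∂ppp (m.restrict W) := by
  have h := lintegral_ppp_split m hW (F := fun s _ => F s) (hF.comp measurable_fst)
  simpa using h

/-- a function of the points in `W` only sees the intensity on `W` -/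
theorem lintegral_ppp_congr (m m' : Measure α) [IsFiniteMeasure m] [IsFiniteMeasure m']
    {W : Set α} (hW : MeasurableSet W) (h : m.restrict W = m'.restrict W)
    {F : Set α → ℝ≥0∞} (hF : Meas F) :
    ∫⁻ c, F (pts c ∩ W) ∂ppp m = ∫⁻ c, F (pts c ∩ W) ∂ppp m' := by
  rw [lintegral_ppp_restrict m hW hF, lintegral_ppp_restrict m' hW hF, h]

/-- independence over two disjoint sets -/
theorem lintegral_ppp_mul (m : Measure α) [IsFiniteMeasure m] {A B : Set α}
    (hA : MeasurableSet A) (hB : MeasurableSet B) (hAB : Disjoint A B)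
    {F F' : Set α → ℝ≥0∞} (hF : Meas F) (hF' : Meas F') :
    ∫⁻ c, F (pts c ∩ A) * F' (pts c ∩ B) ∂ppp m =
      (∫⁻ c, F (pts c ∩ A) ∂ppp m) * ∫⁻ c, F' (pts c ∩ B) ∂ppp m := by
  have h := lintegral_ppp_split m hA (F := fun s t => F s * F' (t ∩ B))
    ((hF.comp measurable_fst).mul ((hF'.inter hB).comp measurable_snd))
  have e : ∀ s : Set α, s ∩ Aᶜ ∩ B = s ∩ B := fun s => by
    rw [inter_assoc, inter_eq_self_of_subset_right hAB.symm.subset_compl_right]
  simp only [e] at h
  rw [h]
  simp_rw [lintegral_const_mul _ (hF'.inter hB)]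
  rw [lintegral_mul_const _ hF, ← lintegral_ppp_restrict m hA hF,
    ← lintegral_ppp_restrict m hA.compl (hF'.inter hB)]
  simp only [e]

theorem indepFun_ppp (m : Measure α) [IsFiniteMeasure m] {A B : Set α}
    (hA : MeasurableSet A) (hB : MeasurableSet B) (hAB : Disjoint A B)
    {F : Set α → β} {F' : Set α → γ} (hF : Meas F) (hF' : Meas F') :
    IndepFun (fun c => F (pts c ∩ A)) (fun c => F' (pts c ∩ B)) (ppp m) := by
  rw [indepFun_iff_measure_inter_preimage_eq_mul]
  intro s t hs ht
  have h1 : Meas fun u => s.indicator (1 : β → ℝ≥0∞) (F u) :=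
    (measurable_one.indicator hs).comp hF
  have h2 : Meas fun u => t.indicator (1 : γ → ℝ≥0∞) (F' u) :=
    (measurable_one.indicator ht).comp hF'
  have h := lintegral_ppp_mul m hA hB hAB h1 h2
  have m1 := (hF.inter hA) hs
  have m2 := (hF'.inter hB) ht
  rw [← lintegral_indicator_one m1, ← lintegral_indicator_one m2,
    ← lintegral_indicator_one (m1.inter m2)]
  refine Eq.trans (lintegral_congr fun c => ?_) h
  by_cases hc : F (pts c ∩ A) ∈ s <;> by_cases hd : F' (pts c ∩ B) ∈ t <;>
    simp [indicator, hc, hd]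

/-- image of a configuration -/
def cmap {α β : Type*} (f : α → β) (c : Conf α) : Conf β := ⟨c.1, fun i => f (c.2 i)⟩

omit [MeasurableSpace α] [MeasurableSpace β] in
@[simp] theorem pts_cmap (f : α → β) (c : Conf α) : pts (cmap f c) = f '' pts c :=
  range_comp f c.2

theorem measurable_cmap_param {f : G → α → β} (hf : Measurable fun p : G × α => f p.1 p.2) :
    Measurable fun p : G × Conf α => cmap (f p.1) p.2 := by
  refine measurable_prod_conf fun n => (measurable_mk n).comp ?_
  exact measurable_pi_lambda _ fun i => hf.comp (f := fun p : G × (Fin n → α) => (p.1, p.2 i))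
    (measurable_fst.prodMk ((measurable_pi_apply i).comp measurable_snd))

theorem measurable_cmap {f : α → β} (hf : Measurable f) : Measurable (cmap f) := by
  refine measurable_conf.2 fun n => (measurable_mk n).comp ?_
  exact measurable_pi_lambda _ fun i => hf.comp (measurable_pi_apply i)

/-- the mapping theorem -/
theorem ppp_map (m : Measure α) [IsFiniteMeasure m] {f : α → β} (hf : Measurable f) :
    (ppp m).map (cmap f) = ppp (m.map f) := by
  ext s hs
  rw [Measure.map_apply (measurable_cmap hf) hs, ppp_apply _ (measurable_cmap hf hs),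
    ppp_apply _ hs, Measure.map_apply hf MeasurableSet.univ, preimage_univ]
  refine tsum_congr fun n => ?_
  rw [← Measure.pi_map_pi (fun _ => hf.aemeasurable), Measure.map_apply
    (f := fun (x : Fin n → α) i => f (x i))
    (measurable_pi_lambda _ fun i => hf.comp (measurable_pi_apply i)) (measurable_mk n hs)]
  rfl

theorem Meas.image {F : Set β → γ} (hF : Meas F) {f : α → β} (hf : Measurable f) :
    Meas fun s => F (f '' s) := by
  simpa [Meas, Function.comp_def] using hF.comp (measurable_cmap hf)

theorem lintegral_ppp_map (m : Measure α) [IsFiniteMeasure m] {f : α → β} (hf : Measurable f)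
    {F : Set β → ℝ≥0∞} (hF : Meas F) :
    ∫⁻ c, F (f '' pts c) ∂ppp m = ∫⁻ c, F (pts c) ∂ppp (m.map f) := by
  rw [← ppp_map m hf, lintegral_map hF (measurable_cmap hf)]
  simp

/-- independence over finitely many disjoint sets -/
theorem lintegral_ppp_prod (m : Measure α) [IsFiniteMeasure m] {ι : Type*} (I : Finset ι)
    {A : ι → Set α} (hA : ∀ i ∈ I, MeasurableSet (A i))
    (hd : (I : Set ι).PairwiseDisjoint A) {F : ι → Set α → ℝ≥0∞} (hF : ∀ i ∈ I, Meas (F i)) :
    ∫⁻ c, ∏ i ∈ I, F i (pts c ∩ A i) ∂ppp m = ∏ i ∈ I, ∫⁻ c, F i (pts c ∩ A i) ∂ppp m := by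
  classical
  induction I using Finset.induction_on with
  | empty => simp
  | insert j I hj ih =>
    have hA' : ∀ i ∈ I, MeasurableSet (A i) := fun i hi => hA i (Finset.mem_insert_of_mem hi)
    have hF' : ∀ i ∈ I, Meas (F i) := fun i hi => hF i (Finset.mem_insert_of_mem hi)
    have hj' := hA j (Finset.mem_insert_self _ _)
    have hM : Meas fun s => ∏ i ∈ I, F i (s ∩ A i) :=
      Finset.measurable_prod _ fun i hi => (hF' i hi).inter (hA' i hi)
    have h := lintegral_ppp_mul m hj' hj'.compl disjoint_compl_right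
      (hF j (Finset.mem_insert_self _ _)) hM
    have e : ∀ s : Set α, ∏ i ∈ I, F i (s ∩ (A j)ᶜ ∩ A i) = ∏ i ∈ I, F i (s ∩ A i) := by
      intro s
      refine Finset.prod_congr rfl fun i hi => ?_
      have hdis : Disjoint (A i) (A j) := hd (by simp [hi]) (by simp) (fun e => hj (e ▸ hi))
      rw [inter_assoc, inter_eq_self_of_subset_right hdis.subset_compl_right]
    simp only [e] at h
    simp only [Finset.prod_insert hj]
    rw [h, ih hA' (hd.subset (by simp)) hF']

end Pool.Agent.Lib.MP_0d9445_pr.PPP
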