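import Pool.Agent.Lib.MP_0d9445_pr.PPP.Basic

/-!
Operations on configurations (adding a point, union, restriction to a set) and the superposition
formula for Poisson point processes.
-/

open MeasureTheory ProbabilityTheory Set
open scoped ENNReal Nat

noncomputable section

namespace Pool.Agent.Lib.MP_0d9445_pr.PPP

variable {α β G : Type*} [MeasurableSpace α] [MeasurableSpace β] [MeasurableSpace G]

/-- add a point -/
def cons {α : Type*} (a : α) (c : Conf α) : Conf α := ⟨c.1 + 1, Fin.cons a c.2⟩

/-- union of two configurations -/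
def app {α : Type*} (c d : Conf α) : Conf α := ⟨c.1 + d.1, Fin.append c.2 d.2⟩

open Classical in
/-- the labels of the points in `W` -/
def idx {α : Type*} (W : Set α) (c : Conf α) : Finset (Fin c.1) :=
  Finset.univ.filter fun i => c.2 i ∈ W

/-- keep the points in `W` -/
def filt {α : Type*} (W : Set α) (c : Conf α) : Conf α :=
  ⟨(idx W c).card, fun j => c.2 ((idx W c).orderEmbOfFin rfl j)⟩

omit [MeasurableSpace α] in
@[simp] theorem pts_cons (a : α) (c : Conf α) : pts (cons a c) = insert a (pts c) :=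
  Fin.range_cons _ _

omit [MeasurableSpace α] in
theorem range_append {k l : ℕ} (x : Fin k → α) (y : Fin l → α) :
    range (Fin.append x y) = range x ∪ range y := by
  ext z
  constructor
  · rintro ⟨i, rfl⟩
    induction i using Fin.addCases with
    | left i => exact Or.inl ⟨i, by simp⟩
    | right i => exact Or.inr ⟨i, by simp⟩
  · rintro (⟨i, rfl⟩ | ⟨i, rfl⟩)
    · exact ⟨Fin.castAdd l i, by simp⟩
    · exact ⟨Fin.natAdd k i, by simp⟩

omit [MeasurableSpace α] in
@[simp] theorem pts_app (c d : Conf α) : pts (app c d) = pts c ∪ pts d := range_append _ _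

omit [MeasurableSpace α] in
@[simp] theorem pts_filt (W : Set α) (c : Conf α) : pts (filt W c) = pts c ∩ W := by
  classical
  have h := Finset.range_orderEmbOfFin (idx W c) rfl
  ext z
  constructor
  · rintro ⟨j, rfl⟩
    refine ⟨⟨_, rfl⟩, ?_⟩
    have : (idx W c).orderEmbOfFin rfl j ∈ idx W c := Finset.orderEmbOfFin_mem _ _ _
    exact (Finset.mem_filter.1 this).2
  · rintro ⟨⟨i, rfl⟩, hi⟩
    have hi' : i ∈ (↑(idx W c) : Set (Fin c.1)) :=
      Finset.mem_coe.2 (Finset.mem_filter.2 ⟨Finset.mem_univ _, hi⟩)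
    rw [← h] at hi'
    obtain ⟨j, hj⟩ := hi'
    exact ⟨j, congrArg c.2 hj⟩

theorem measurable_cons : Measurable fun p : α × Conf α => cons p.1 p.2 := by
  refine measurable_prod_conf fun n => (measurable_mk (n + 1)).comp ?_
  refine measurable_pi_lambda _ fun i => ?_
  induction i using Fin.cases with
  | zero => exact measurable_fst
  | succ i => exact (measurable_pi_apply i).comp measurable_snd

theorem measurable_app : Measurable fun p : Conf α × Conf α => app p.1 p.2 := by
  refine measurable_prod_conf fun l => measurable_conf_prod fun k =>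
    (measurable_mk (k + l)).comp ?_
  refine measurable_pi_lambda _ fun i => ?_
  induction i using Fin.addCases with
  | left i =>
    simp only [Fin.append_left]
    exact (measurable_pi_apply i).comp measurable_fst
  | right i =>
    simp only [Fin.append_right]
    exact (measurable_pi_apply i).comp measurable_snd

/-- restriction to a set that depends measurably on a parameter -/
theorem measurable_filt_param {W : G → Set α} (hW : MeasurableSet {p : G × α | p.2 ∈ W p.1}) :
    Measurable fun p : G × Conf α => filt (W p.1) p.2 := by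
  classical
  refine measurable_prod_conf fun n => ?_
  let _ : MeasurableSpace (Finset (Fin n)) := ⊤
  have : MeasurableSingletonClass (Finset (Fin n)) := ⟨fun _ => trivial⟩
  have h1 : Measurable fun p : (Fin n → α) × Finset (Fin n) =>
      (mk p.2.card fun j => p.1 (p.2.orderEmbOfFin rfl j) : Conf α) := by
    refine measurable_from_prod_countable_left fun S => (measurable_mk S.card).comp ?_
    exact measurable_pi_lambda _ fun j => measurable_pi_apply (S.orderEmbOfFin rfl j)
  have h2 : Measurable fun p : G × (Fin n → α) =>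
      (show Finset (Fin n) from idx (W p.1) (mk n p.2)) := by
    refine measurable_to_countable' fun S => ?_
    have e : (fun p : G × (Fin n → α) =>
        (show Finset (Fin n) from idx (W p.1) (mk n p.2))) ⁻¹' {S} =
        ⋂ i, {p | p.2 i ∈ W p.1 ↔ i ∈ S} := by
      ext p
      simp only [mem_preimage, mem_singleton_iff, mem_iInter, mem_ofPred_eq, idx,
        Finset.ext_iff, Finset.mem_filter, Finset.mem_univ, true_and]
    rw [e]
    refine MeasurableSet.iInter fun i => ?_
    have h3 : MeasurableSet {p : G × (Fin n → α) | p.2 i ∈ W p.1} :=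
      (show Measurable fun p : G × (Fin n → α) => (p.1, p.2 i) from
        measurable_fst.prodMk ((measurable_pi_apply i).comp measurable_snd)) hW
    by_cases hi : i ∈ S
    · simp only [hi, iff_true]
      exact h3
    · simp only [hi, iff_false]
      exact h3.compl
  exact h1.comp (measurable_snd.prodMk h2)

theorem measurable_filt {W : Set α} (hW : MeasurableSet W) :
    Measurable fun c : Conf α => filt W c :=
  (measurable_filt_param (G := Unit) (W := fun _ => W) (measurable_snd hW)).comp
    (f := fun c : Conf α => ((), c)) measurable_prodMk_left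

/-- `F` is a measurable function of the finite set of points -/
def Meas (F : Set α → β) : Prop := Measurable fun c : Conf α => F (pts c)

theorem Meas.range {F : Set α → β} (hF : Meas F) (n : ℕ) :
    Measurable fun x : Fin n → α => F (range x) := hF.comp (measurable_mk n)

theorem meas_of_range {F : Set α → β} (h : ∀ n, Measurable fun x : Fin n → α => F (range x)) :
    Meas F := measurable_conf.2 h

theorem Meas.insert_joint {F : Set α → β} (hF : Meas F) :
    Measurable fun p : α × Conf α => F (insert p.1 (pts p.2)) := by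
  simpa [Function.comp_def] using hF.comp measurable_cons

theorem Meas.insert {F : Set α → β} (hF : Meas F) (a : α) : Meas fun s => F (insert a s) :=
  hF.insert_joint.comp (measurable_const.prodMk measurable_id)

theorem Meas.union_joint {F : Set α → β} (hF : Meas F) :
    Measurable fun p : Conf α × Conf α => F (pts p.1 ∪ pts p.2) := by
  simpa [Function.comp_def] using hF.comp measurable_app

theorem Meas.inter {F : Set α → β} (hF : Meas F) {W : Set α} (hW : MeasurableSet W) :
    Meas fun s => F (s ∩ W) := by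
  simpa [Meas, Function.comp_def] using hF.comp (measurable_filt hW)

theorem lintegral_pi_succ (m : Measure α) [SigmaFinite m] {n : ℕ} (i : Fin (n + 1))
    {f : (Fin (n + 1) → α) → ℝ≥0∞} (hf : Measurable f) :
    ∫⁻ x, f x ∂(Measure.pi fun _ : Fin (n + 1) => m) =
      ∫⁻ a, ∫⁻ y, f (i.insertNth a y) ∂(Measure.pi fun _ : Fin n => m) ∂m := by
  have h := (measurePreserving_piFinSuccAbove (fun _ : Fin (n + 1) => m) i).symm
  rw [← h.lintegral_comp hf]
  exact lintegral_prod _ (hf.comp h.measurable).aemeasurable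

omit [MeasurableSpace α] in
theorem range_insertNth {n : ℕ} (i : Fin (n + 1)) (a : α) (y : Fin n → α) :
    range (i.insertNth (α := fun _ => α) a y) = insert a (range y) := by
  ext z
  simp only [mem_range, mem_insert_iff]
  rw [i.exists_iff_succAbove]
  simp [eq_comm]

/-- the `n`-point integral of a function of the set of points -/
def it (m : Measure α) (n : ℕ) (F : Set α → ℝ≥0∞) : ℝ≥0∞ :=
  ∫⁻ x, F (range x) ∂(Measure.pi fun _ : Fin n => m)

theorem it_zero (m : Measure α) (F : Set α → ℝ≥0∞) : it m 0 F = F ∅ := by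
  simp [it, Set.range_eq_empty]

theorem it_succ (m : Measure α) [SigmaFinite m] (n : ℕ) {F : Set α → ℝ≥0∞} (hF : Meas F) :
    it m (n + 1) F = ∫⁻ a, it m n (fun s => F (insert a s)) ∂m := by
  rw [it, lintegral_pi_succ m 0 (hF.range _)]
  simp only [range_insertNth, it]

/-- the integral over `k` and `l` points for two intensities -/
def it2 (m₁ m₂ : Measure α) (k l : ℕ) (F : Set α → ℝ≥0∞) : ℝ≥0∞ :=
  ∫⁻ x, ∫⁻ y, F (range x ∪ range y) ∂(Measure.pi fun _ : Fin l => m₂)
    ∂(Measure.pi fun _ : Fin k => m₁)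

theorem meas3 {F : Set α → ℝ≥0∞} (hF : Meas F) (k l : ℕ) :
    Measurable fun p : (α × (Fin k → α)) × (Fin l → α) =>
      F (insert p.1.1 (range p.1.2 ∪ range p.2)) := by
  have h := hF.insert_joint.comp (f := fun p : (α × (Fin k → α)) × (Fin l → α) =>
      (p.1.1, app (mk k p.1.2) (mk l p.2)))
    (measurable_fst.fst.prodMk (measurable_app.comp
      (((measurable_mk k).comp measurable_fst.snd).prodMk ((measurable_mk l).comp measurable_snd))))
  simp only [Function.comp_def, pts_app] at h
  exact h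

theorem meas2 {F : Set α → ℝ≥0∞} (hF : Meas F) (k l : ℕ) :
    Measurable fun p : (Fin k → α) × (Fin l → α) => F (range p.1 ∪ range p.2) :=
  hF.union_joint.comp (f := fun p : (Fin k → α) × (Fin l → α) => (mk k p.1, mk l p.2))
    (((measurable_mk k).comp measurable_fst).prodMk ((measurable_mk l).comp measurable_snd))

theorem measurable_it2 (m₁ m₂ : Measure α) [SigmaFinite m₁] [SigmaFinite m₂] (k l : ℕ)
    {F : Set α → ℝ≥0∞} (hF : Meas F) :
    Measurable fun a => it2 m₁ m₂ k l fun s => F (insert a s) :=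
  (meas3 hF k l).lintegral_prod_right'.lintegral_prod_right'

theorem it2_succ_left (m₁ m₂ : Measure α) [SigmaFinite m₁] [SigmaFinite m₂] (k l : ℕ)
    {F : Set α → ℝ≥0∞} (hF : Meas F) :
    it2 m₁ m₂ (k + 1) l F = ∫⁻ a, it2 m₁ m₂ k l (fun s => F (insert a s)) ∂m₁ := by
  rw [it2, lintegral_pi_succ m₁ 0 (meas2 hF (k + 1) l).lintegral_prod_right']
  simp only [range_insertNth, it2, insert_union]

theorem it2_succ_right (m₁ m₂ : Measure α) [SigmaFinite m₁] [SigmaFinite m₂] (k l : ℕ)
    {F : Set α → ℝ≥0∞} (hF : Meas F) :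
    it2 m₁ m₂ k (l + 1) F = ∫⁻ a, it2 m₁ m₂ k l (fun s => F (insert a s)) ∂m₂ := by
  have h : ∀ x : Fin k → α, ∫⁻ y, F (range x ∪ range y) ∂(Measure.pi fun _ : Fin (l + 1) => m₂) =
      ∫⁻ a, ∫⁻ y, F (insert a (range x ∪ range y)) ∂(Measure.pi fun _ : Fin l => m₂) ∂m₂ := by
    intro x
    rw [lintegral_pi_succ m₂ 0 (f := fun y => F (range x ∪ range y))
      ((meas2 hF k (l + 1)).comp (f := fun y => (x, y)) measurable_prodMk_left)]
    simp only [range_insertNth, union_insert]
  simp only [it2, h]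
  exact lintegral_lintegral_swap
    ((meas3 hF k l).lintegral_prod_right'.comp measurable_swap).aemeasurable

theorem it_add (m₁ m₂ : Measure α) [SigmaFinite m₁] [SigmaFinite m₂] (n : ℕ)
    {F : Set α → ℝ≥0∞} (hF : Meas F) :
    it (m₁ + m₂) n F =
      ∑ p ∈ Finset.HasAntidiagonal.antidiagonal n, n.choose p.1 • it2 m₁ m₂ p.1 p.2 F := by
  induction n generalizing F with
  | zero => simp [it_zero, it2, Set.range_eq_empty]
  | succ n ih =>
    rw [it_succ _ _ hF, Finset.sum_antidiagonal_choose_succ_nsmul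
      (fun k l => it2 m₁ m₂ k l F) n]
    simp_rw [ih (hF.insert _), nsmul_eq_mul]
    rw [lintegral_add_measure, add_comm,
      lintegral_finsetSum _ fun p _ => (measurable_it2 m₁ m₂ p.1 p.2 hF).const_mul _,
      lintegral_finsetSum _ fun p _ => (measurable_it2 m₁ m₂ p.1 p.2 hF).const_mul _]
    congr 1
    · refine Finset.sum_congr rfl fun p _ => ?_
      rw [it2_succ_right _ _ _ _ hF, lintegral_const_mul _ (measurable_it2 m₁ m₂ p.1 p.2 hF)]
    · refine Finset.sum_congr rfl fun p hp => ?_
      rw [it2_succ_left _ _ _ _ hF, Nat.choose_symm_of_eq_add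
        (Finset.HasAntidiagonal.mem_antidiagonal.1 hp).symm, lintegral_const_mul _ (measurable_it2 m₁ m₂ p.1 p.2 hF)]

theorem wt_add {a b : ℝ≥0∞} (ha : a ≠ ∞) (hb : b ≠ ∞) (k l : ℕ) :
    wt (a + b) (k + l) * ((k + l).choose k : ℝ≥0∞) = wt a k * wt b l := by
  have h : (((k + l).choose k : ℕ) : ℝ≥0∞) * (k ! : ℝ≥0∞) * (l ! : ℝ≥0∞) = ((k + l)! : ℕ) := by
    rw [← Nat.add_choose_mul_factorial_mul_factorial k l, Nat.choose_symm_add]
    push_cast
    rfl
  have h0 : ∀ n : ℕ, ((n ! : ℕ) : ℝ≥0∞) ≠ 0 := fun n => by exact_mod_cast n.factorial_ne_zero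
  have ht : ∀ n : ℕ, ((n : ℕ) : ℝ≥0∞) ≠ ∞ := fun n => ENNReal.natCast_ne_top n
  have hc : (((k + l).choose k : ℕ) : ℝ≥0∞) ≠ 0 := by
    exact_mod_cast (Nat.choose_pos (Nat.le_add_right k l)).ne'
  rw [wt, wt, wt, ENNReal.toReal_add ha hb, neg_add, Real.exp_add,
    ENNReal.ofReal_mul (Real.exp_pos _).le, ← h, div_eq_mul_inv, div_eq_mul_inv, div_eq_mul_inv,
    ENNReal.mul_inv (Or.inr (ht _)) (Or.inr (h0 _)),
    ENNReal.mul_inv (Or.inr (ht _)) (Or.inr (h0 _))]
  have h1 := ENNReal.inv_mul_cancel hc (ht _)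
  calc _ = ENNReal.ofReal (Real.exp (-a.toReal)) * ((k ! : ℕ) : ℝ≥0∞)⁻¹ *
        (ENNReal.ofReal (Real.exp (-b.toReal)) * ((l ! : ℕ) : ℝ≥0∞)⁻¹) *
        ((((k + l).choose k : ℕ) : ℝ≥0∞)⁻¹ * (((k + l).choose k : ℕ) : ℝ≥0∞)) := by ring
    _ = _ := by rw [h1, mul_one]

theorem lintegral_ppp_pts (m : Measure α) (F : Set α → ℝ≥0∞) :
    ∫⁻ c, F (pts c) ∂ppp m = ∑' n, wt (m univ) n * it m n F := lintegral_ppp m _

/-- superposition -/
theorem lintegral_ppp_add (m₁ m₂ : Measure α) [IsFiniteMeasure m₁] [IsFiniteMeasure m₂]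
    {F : Set α → ℝ≥0∞} (hF : Meas F) :
    ∫⁻ c, F (pts c) ∂ppp (m₁ + m₂) = ∫⁻ c, ∫⁻ d, F (pts c ∪ pts d) ∂ppp m₂ ∂ppp m₁ := by
  rw [lintegral_ppp_pts, lintegral_ppp m₁]
  have h1 : ∀ k, ∫⁻ x, ∫⁻ d, F (pts (⟨k, x⟩ : Conf α) ∪ pts d) ∂ppp m₂
      ∂(Measure.pi fun _ : Fin k => m₁) = ∑' l, wt (m₂ univ) l * it2 m₁ m₂ k l F := by
    intro k
    simp_rw [lintegral_ppp m₂]
    refine (lintegral_tsum fun l =>
      ((meas2 hF k l).lintegral_prod_right'.const_mul _).aemeasurable).trans ?_
    exact tsum_congr fun l => lintegral_const_mul _ (meas2 hF k l).lintegral_prod_right'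
  simp_rw [h1, ← ENNReal.tsum_mul_left, it_add _ _ _ hF, Finset.mul_sum]
  rw [← ENNReal.tsum_prod (f := fun k l => wt (m₁ univ) k * (wt (m₂ univ) l * it2 m₁ m₂ k l F)),
    ← Finset.HasAntidiagonal.sigmaAntidiagonalEquivProd.tsum_eq,
    ENNReal.tsum_sigma']
  refine tsum_congr fun n => ?_
  rw [← Finset.tsum_subtype (Finset.HasAntidiagonal.antidiagonal n)]
  refine tsum_congr fun p => ?_
  obtain ⟨⟨k, l⟩, hp⟩ := p
  obtain rfl : k + l = n := Finset.HasAntidiagonal.mem_antidiagonal.1 hp
  simp only [Finset.HasAntidiagonal.sigmaAntidiagonalEquivProd_apply, nsmul_eq_mul,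
    Measure.add_apply]
  rw [← mul_assoc, wt_add (measure_ne_top _ _) (measure_ne_top _ _), mul_assoc]

end Pool.Agent.Lib.MP_0d9445_pr.PPP
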