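import Pool.Agent.Lib.MP_0d9445_pr.PPP.Restrict

/-!
Sums over the points of a Poisson process: measurability, the Mecke formula, moments and tails of
the number of points in a set.
-/

open MeasureTheory ProbabilityTheory Set
open scoped ENNReal Nat

noncomputable section

namespace Pool.Agent.Lib.MP_0d9445_pr.PPP

variable {α β G : Type*} [MeasurableSpace α] [MeasurableSpace β] [MeasurableSpace G]

open Classical in
/-- the labels at which a point occurs for the first time -/
def firsts {α : Type*} {n : ℕ} (x : Fin n → α) : Finset (Fin n) :=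
  Finset.univ.filter fun i => ∀ j, j < i → x j ≠ x i

omit [MeasurableSpace α] in
theorem firsts_injOn {n : ℕ} (x : Fin n → α) : InjOn x (firsts x) := by
  classical
  intro i hi j hj hij
  have hi' := (Finset.mem_filter.1 (Finset.mem_coe.1 hi)).2
  have hj' := (Finset.mem_filter.1 (Finset.mem_coe.1 hj)).2
  rcases lt_trichotomy i j with h | h | h
  · exact absurd hij (hj' i h)
  · exact h
  · exact absurd hij.symm (hi' j h)

omit [MeasurableSpace α] in
theorem image_firsts {n : ℕ} (x : Fin n → α) : x '' firsts x = range x := by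
  classical
  refine subset_antisymm (image_subset_range _ _) ?_
  rintro _ ⟨i, rfl⟩
  obtain ⟨j, hj, hmin⟩ := Finset.exists_min_image (Finset.univ.filter fun j => x j = x i) id
    ⟨i, by simp⟩
  have hj' := (Finset.mem_filter.1 hj).2
  refine ⟨j, Finset.mem_coe.2 (Finset.mem_filter.2 ⟨Finset.mem_univ _, fun k hk e => ?_⟩), hj'⟩
  exact absurd (hmin k (Finset.mem_filter.2 ⟨Finset.mem_univ _, e.trans hj'⟩)) (not_le.2 hk)

omit [MeasurableSpace α] in
theorem tsum_range_eq {n : ℕ} (x : Fin n → α) (f : α → ℝ≥0∞) :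
    ∑' a : range x, f a = ∑ i ∈ firsts x, f (x i) := by
  rw [← image_firsts x, tsum_image f (firsts_injOn x), Finset.tsum_subtype' (firsts x)
    fun i => f (x i)]

omit [MeasurableSpace α] in
theorem tsum_range_le {n : ℕ} (x : Fin n → α) (f : α → ℝ≥0∞) :
    ∑' a : range x, f a ≤ ∑ i, f (x i) := by
  rw [tsum_range_eq]
  exact Finset.sum_le_sum_of_subset (Finset.subset_univ _)

omit [MeasurableSpace α] in
theorem tsum_range_of_injective {n : ℕ} {x : Fin n → α} (hx : Function.Injective x)
    (f : α → ℝ≥0∞) : ∑' a : range x, f a = ∑ i, f (x i) := by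
  rw [tsum_range f hx, tsum_fintype]

/-- a sum over the points is jointly measurable -/
theorem measurable_tsum_pts [MeasurableEq α] {f : (G × Conf α) × α → ℝ≥0∞} (hf : Measurable f) :
    Measurable fun p : G × Conf α => ∑' a : pts p.2, f (p, a) := by
  classical
  refine measurable_prod_conf fun n => ?_
  have e : (fun p : G × (Fin n → α) => ∑' a : pts (⟨n, p.2⟩ : Conf α), f ((p.1, ⟨n, p.2⟩), a)) =
      fun p => ∑ i, if ∀ j, j < i → p.2 j ≠ p.2 i then f ((p.1, ⟨n, p.2⟩), p.2 i) else 0 := by
    funext p
    rw [← Finset.sum_filter]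
    exact tsum_range_eq p.2 fun a => f ((p.1, ⟨n, p.2⟩), a)
  rw [e]
  refine Finset.measurable_sum _ fun i _ => Measurable.ite ?_ ?_ measurable_const
  · refine measurableSet_setOfPred.2 (Measurable.forall fun j => Measurable.imp
      measurable_const (Measurable.not ?_))
    exact ((measurable_pi_apply j).comp measurable_snd).eq
      ((measurable_pi_apply i).comp measurable_snd)
  · exact hf.comp ((measurable_fst.prodMk ((measurable_mk n).comp measurable_snd)).prodMk
      ((measurable_pi_apply i).comp measurable_snd))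

theorem meas_tsum [MeasurableEq α] {F : α → Set α → ℝ≥0∞}
    (hF : Measurable fun p : α × Conf α => F p.1 (pts p.2)) :
    Meas fun s => ∑' a : s, F a s :=
  (measurable_tsum_pts (G := Unit) (f := fun p => F p.2 (pts p.1.2))
    (hF.comp (measurable_snd.prodMk measurable_fst.snd))).comp
    (f := fun c : Conf α => ((), c)) measurable_prodMk_left

/-- membership of a point in the configuration is jointly measurable -/
theorem measurableSet_mem_pts [MeasurableEq α] :
    MeasurableSet {p : α × Conf α | p.1 ∈ pts p.2} := by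
  refine measurableSet_setOfPred.2 (measurable_prod_conf fun n => ?_)
  exact Measurable.exists fun i => ((measurable_pi_apply i).comp measurable_snd).eq measurable_fst

theorem wt_succ (a : ℝ≥0∞) (n : ℕ) : wt a (n + 1) * ((n + 1 : ℕ) : ℝ≥0∞) = wt a n := by
  have h0 : ((n + 1 : ℕ) : ℝ≥0∞) ≠ 0 := by exact_mod_cast n.succ_ne_zero
  have ht : ((n + 1 : ℕ) : ℝ≥0∞) ≠ ∞ := ENNReal.natCast_ne_top _
  rw [wt, wt, Nat.factorial_succ, Nat.cast_mul, div_eq_mul_inv, div_eq_mul_inv,
    ENNReal.mul_inv (Or.inl h0) (Or.inl ht)]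
  have h1 := ENNReal.inv_mul_cancel h0 ht
  calc _ = ENNReal.ofReal (Real.exp (-a.toReal)) * ((n ! : ℕ) : ℝ≥0∞)⁻¹ *
        (((n + 1 : ℕ) : ℝ≥0∞)⁻¹ * ((n + 1 : ℕ) : ℝ≥0∞)) := by ring
    _ = _ := by rw [h1, mul_one]

/-- the Mecke formula for the sum over labels -/
theorem mecke_labels (m : Measure α) [IsFiniteMeasure m] {F : α → Set α → ℝ≥0∞}
    (hF : Measurable fun p : α × Conf α => F p.1 (pts p.2)) :
    ∫⁻ c, ∑ i, F (c.2 i) (pts c) ∂ppp m =
      ∫⁻ a, ∫⁻ c, F a (insert a (pts c)) ∂ppp m ∂m := by
  have hI : Measurable fun p : α × Conf α => F p.1 (insert p.1 (pts p.2)) := by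
    simpa [Function.comp_def] using hF.comp (measurable_fst.prodMk measurable_cons)
  have hIn : ∀ n, Measurable fun p : α × (Fin n → α) => F p.1 (insert p.1 (range p.2)) :=
    fun n => hI.comp (f := fun p : α × (Fin n → α) => (p.1, mk n p.2))
      (measurable_fst.prodMk ((measurable_mk n).comp measurable_snd))
  have hi : ∀ n (i : Fin n), Measurable fun x : Fin n → α => F (x i) (range x) :=
    fun n i => hF.comp (f := fun x : Fin n → α => (x i, mk n x))
      ((measurable_pi_apply i).prodMk (measurable_mk n))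
  rw [lintegral_ppp, tsum_eq_zero_add' ENNReal.summable]
  simp only [Finset.univ_eq_empty, Finset.sum_empty, lintegral_const, zero_mul, mul_zero,
    zero_add]
  simp_rw [lintegral_ppp m]
  rw [lintegral_tsum (f := fun n a => wt (m univ) n * ∫⁻ x, F a (insert a (pts (⟨n, x⟩ : Conf α)))
    ∂(Measure.pi fun _ : Fin n => m))
    fun n => ((hIn n).lintegral_prod_right'.const_mul _).aemeasurable]
  refine tsum_congr fun n => ?_
  have h1 : ∫⁻ x, ∑ i, F (x i) (range x) ∂(Measure.pi fun _ : Fin (n + 1) => m) =
      ((n + 1 : ℕ) : ℝ≥0∞) * ∫⁻ a, ∫⁻ y, F a (insert a (range y))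
        ∂(Measure.pi fun _ : Fin n => m) ∂m := by
    rw [lintegral_finsetSum _ fun i _ => hi _ i]
    rw [Finset.sum_congr rfl fun i _ => lintegral_pi_succ m i (hi _ i)]
    simp only [range_insertNth, Fin.insertNth_apply_same, Finset.sum_const, Finset.card_univ,
      Fintype.card_fin, nsmul_eq_mul]
  refine Eq.trans (congrArg (wt (m univ) (n + 1) * ·) h1) ?_
  rw [← mul_assoc, wt_succ]
  exact (lintegral_const_mul _ (hIn n).lintegral_prod_right').symm

/-- the Mecke inequality (no assumption on atoms) -/
theorem mecke_le (m : Measure α) [IsFiniteMeasure m] {F : α → Set α → ℝ≥0∞}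
    (hF : Measurable fun p : α × Conf α => F p.1 (pts p.2)) :
    ∫⁻ c, ∑' a : pts c, F a (pts c) ∂ppp m ≤
      ∫⁻ a, ∫⁻ c, F a (insert a (pts c)) ∂ppp m ∂m := by
  rw [← mecke_labels m hF]
  exact lintegral_mono fun c => tsum_range_le c.2 fun a => F a (pts c)

theorem ae_injective [MeasurableEq α] (m : Measure α) [IsFiniteMeasure m] [NullSingletonClass m] :
    ∀ᵐ c ∂ppp m, Function.Injective c.2 := by
  have hm : ∀ n (i j : Fin n), MeasurableSet {x : Fin n → α | x i = x j} := fun n i j =>
    measurableSet_setOfPred.2 ((measurable_pi_apply i).eq (measurable_pi_apply j))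
  have h : ∀ n, ∀ᵐ x ∂(Measure.pi fun _ : Fin n => m), Function.Injective x := by
    intro n
    have h1 : ∀ i j : Fin n, ∀ᵐ x ∂(Measure.pi fun _ : Fin n => m), x i = x j → i = j := by
      intro i j
      by_cases hij : i = j
      · exact ae_of_all _ fun _ _ => hij
      · cases n with
        | zero => exact i.elim0
        | succ n =>
          obtain ⟨k, rfl⟩ := Fin.exists_succAbove_eq (Ne.symm hij)
          have h2 : (Measure.pi fun _ : Fin (n + 1) => m) {x | x i = x (i.succAbove k)} = 0 := by
            rw [← lintegral_indicator_one (hm _ _ _),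
              lintegral_pi_succ m i (measurable_one.indicator (hm _ _ _))]
            refine (lintegral_congr fun a => ?_).trans lintegral_zero
            refine (lintegral_congr_ae ?_).trans lintegral_zero
            filter_upwards [Measure.ae_eval_ne (fun _ : Fin n => m) k a] with y hy
            simp [indicator, hy.symm]
          filter_upwards [measure_eq_zero_iff_ae_notMem.1 h2] with x hx hx'
          exact absurd hx' hx
    filter_upwards [ae_all_iff.2 fun i => ae_all_iff.2 fun j => h1 i j] with x hx i j using hx i j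
  rw [ppp, Measure.ae_sum_iff]
  intro n
  refine Measure.ae_smul_measure ?_ _
  exact (measurableEmbedding_mk n).ae_map_iff.2 (h n)

/-- the Mecke formula -/
theorem mecke [MeasurableEq α] (m : Measure α) [IsFiniteMeasure m] [NullSingletonClass m]
    {F : α → Set α → ℝ≥0∞} (hF : Measurable fun p : α × Conf α => F p.1 (pts p.2)) :
    ∫⁻ c, ∑' a : pts c, F a (pts c) ∂ppp m =
      ∫⁻ a, ∫⁻ c, F a (insert a (pts c)) ∂ppp m ∂m := by
  rw [← mecke_labels m hF]
  refine lintegral_congr_ae ?_
  filter_upwards [ae_injective m] with c hc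
  exact tsum_range_of_injective hc fun a => F a (pts c)

/-- Campbell's inequality -/
theorem lintegral_tsum_pts_le (m : Measure α) [IsFiniteMeasure m] {f : α → ℝ≥0∞}
    (hf : Measurable f) : ∫⁻ c, ∑' a : pts c, f a ∂ppp m ≤ ∫⁻ a, f a ∂m := by
  simpa using mecke_le m (F := fun a _ => f a) (hf.comp measurable_fst)

/-- Campbell's formula -/
theorem lintegral_tsum_pts [MeasurableEq α] (m : Measure α) [IsFiniteMeasure m] [NullSingletonClass m]
    {f : α → ℝ≥0∞} (hf : Measurable f) :
    ∫⁻ c, ∑' a : pts c, f a ∂ppp m = ∫⁻ a, f a ∂m := by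
  simpa using mecke m (F := fun a _ => f a) (hf.comp measurable_fst)

omit [MeasurableSpace α] in
theorem ncard_eq_tsum {s : Set α} (hs : s.Finite) (A : Set α) (b : ℝ≥0∞) :
    ((s ∩ A).ncard : ℝ≥0∞) * b = ∑' a : s, A.indicator (fun _ => b) a := by
  classical
  lift s to Finset α using hs
  rw [Finset.tsum_subtype' s fun a => A.indicator (fun _ => b) a]
  simp only [indicator]
  rw [← Finset.sum_filter, Finset.sum_const, nsmul_eq_mul, ← Set.ncard_coe_finset,
    Finset.coe_filter]
  rfl

/-- the number of points in a set depending on a parameter is jointly measurable -/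
theorem measurable_ncard_param [MeasurableEq α] {W : G → Set α}
    (hW : MeasurableSet {p : G × α | p.2 ∈ W p.1}) :
    Measurable fun p : G × Conf α => (pts p.2 ∩ W p.1).ncard := by
  have h1 : Measurable fun p : G × Conf α => ((pts p.2 ∩ W p.1).ncard : ℝ≥0∞) := by
    have h := measurable_tsum_pts (G := G) (α := α)
      (f := fun p => {p : G × α | p.2 ∈ W p.1}.indicator (fun _ => 1) (p.1.1, p.2))
      ((measurable_const.indicator hW).comp (measurable_fst.fst.prodMk measurable_snd))
    convert h using 2 with p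
    rw [← mul_one ((pts p.2 ∩ W p.1).ncard : ℝ≥0∞), ncard_eq_tsum (pts_finite _)]
    rfl
  refine measurable_to_countable' fun k => ?_
  convert h1 (measurableSet_singleton (k : ℝ≥0∞)) using 1
  ext p
  simp

theorem meas_ncard [MeasurableEq α] {A : Set α} (hA : MeasurableSet A) :
    Meas fun s : Set α => (s ∩ A).ncard :=
  (measurable_ncard_param (G := Unit) (W := fun _ => A) (measurable_snd hA)).comp
    (f := fun c : Conf α => ((), c)) measurable_prodMk_left

/-- size-biasing inequality for the number of points -/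
theorem lintegral_ncard_mul_le [MeasurableEq α] (m : Measure α) [IsFiniteMeasure m] {A : Set α}
    (hA : MeasurableSet A) {g : ℕ → ℝ≥0∞} (hg : Monotone g) :
    ∫⁻ c, ((pts c ∩ A).ncard : ℝ≥0∞) * g (pts c ∩ A).ncard ∂ppp m ≤
      m A * ∫⁻ c, g ((pts c ∩ A).ncard + 1) ∂ppp m := by
  have hg' : Measurable g := measurable_from_top
  have hF : Measurable fun p : α × Conf α =>
      A.indicator (fun _ => g (pts p.2 ∩ A).ncard) p.1 := by
    have e : (fun p : α × Conf α => A.indicator (fun _ => g (pts p.2 ∩ A).ncard) p.1) =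
        (Prod.fst ⁻¹' A).indicator fun p => g (pts p.2 ∩ A).ncard := by
      funext p
      rfl
    rw [e]
    exact (hg'.comp ((meas_ncard hA).comp measurable_snd)).indicator (measurable_fst hA)
  simp_rw [ncard_eq_tsum (pts_finite _)]
  refine (mecke_le m (F := fun a s => A.indicator (fun _ => g (s ∩ A).ncard) a) hF).trans ?_
  rw [mul_comm, ← lintegral_indicator_const hA]
  refine lintegral_mono fun a => ?_
  by_cases ha : a ∈ A
  · simp only [indicator_of_mem ha]
    refine lintegral_mono fun c => hg ?_
    rw [insert_inter_of_mem ha]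
    exact ncard_insert_le _ _
  · simp [indicator_of_notMem ha]

theorem lintegral_ncard_le [MeasurableEq α] (m : Measure α) [IsFiniteMeasure m] {A : Set α}
    (hA : MeasurableSet A) : ∫⁻ c, ((pts c ∩ A).ncard : ℝ≥0∞) ∂ppp m ≤ m A := by
  simpa using lintegral_ncard_mul_le m hA (g := fun _ => 1) monotone_const

theorem lintegral_ncard [MeasurableEq α] (m : Measure α) [IsFiniteMeasure m] [NullSingletonClass m]
    {A : Set α} (hA : MeasurableSet A) : ∫⁻ c, ((pts c ∩ A).ncard : ℝ≥0∞) ∂ppp m = m A := by
  have h := lintegral_tsum_pts m (f := A.indicator fun _ => 1) (measurable_const.indicator hA)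
  simp_rw [← ncard_eq_tsum (pts_finite _), mul_one] at h
  rw [h, lintegral_indicator_const hA, one_mul]

/-- factorial moments -/
theorem lintegral_descFactorial_le [MeasurableEq α] (m : Measure α) [IsFiniteMeasure m]
    {A : Set α} (hA : MeasurableSet A) (r : ℕ) :
    ∫⁻ c, (((pts c ∩ A).ncard.descFactorial r : ℕ) : ℝ≥0∞) ∂ppp m ≤ m A ^ r := by
  induction r with
  | zero => simp
  | succ r ih =>
    have h := lintegral_ncard_mul_le m hA (g := fun k => (((k - 1).descFactorial r : ℕ) : ℝ≥0∞))
      (fun a b hab => Nat.cast_le.2 (Nat.descFactorial_le r (Nat.sub_le_sub_right hab 1)))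
    simp only [Nat.add_sub_cancel] at h
    rw [pow_succ']
    refine le_trans (le_of_eq (lintegral_congr fun c => ?_)) (h.trans (mul_le_mul_right ih _))
    rw [← Nat.cast_mul]
    congr 1
    cases (pts c ∩ A).ncard with
    | zero => simp
    | succ k => rw [Nat.succ_descFactorial_succ, Nat.add_sub_cancel]

/-- at least `r` points in a set -/
theorem ppp_le_ncard_le [MeasurableEq α] (m : Measure α) [IsFiniteMeasure m]
    {A : Set α} (hA : MeasurableSet A) (r : ℕ) :
    ppp m {c | r ≤ (pts c ∩ A).ncard} ≤ m A ^ r := by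
  refine le_trans ?_ (lintegral_descFactorial_le m hA r)
  have hs : MeasurableSet {c : Conf α | r ≤ (pts c ∩ A).ncard} :=
    (meas_ncard hA) (measurableSet_Ici (a := r))
  rw [← lintegral_indicator_one hs]
  refine lintegral_mono fun c => ?_
  by_cases hc : c ∈ {c : Conf α | r ≤ (pts c ∩ A).ncard}
  · rw [indicator_of_mem hc]
    exact Nat.one_le_cast.2 (Nat.descFactorial_pos.2 hc)
  · rw [indicator_of_notMem hc]
    exact zero_le

/-- exponential moments -/
theorem lintegral_pow_ncard_le [MeasurableEq α] (m : Measure α) [IsFiniteMeasure m]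
    {A : Set α} (hA : MeasurableSet A) {z : ℝ≥0∞} (h1 : 1 ≤ z) (hz : z ≠ ∞) :
    ∫⁻ c, z ^ (pts c ∩ A).ncard ∂ppp m ≤
      ENNReal.ofReal (Real.exp ((z.toReal - 1) * (m A).toReal)) := by
  have hM : Meas fun s : Set α => z ^ (s ∩ univ).ncard :=
    (measurable_from_top (f := fun k : ℕ => z ^ k)).comp (meas_ncard MeasurableSet.univ)
  simp only [inter_univ] at hM
  rw [lintegral_ppp_restrict m hA hM, lintegral_ppp]
  have h2 : ∀ n, ∫⁻ x, z ^ (pts (⟨n, x⟩ : Conf α)).ncard
      ∂(Measure.pi fun _ : Fin n => m.restrict A) ≤ (z * m A) ^ n := by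
    intro n
    refine (lintegral_mono (g := fun _ => z ^ n) fun x => pow_le_pow_right' h1 ?_).trans ?_
    · have := Set.ncard_image_le (f := x) (s := univ) finite_univ
      simpa [pts] using this
    · simp [mul_pow, Measure.pi_univ]
  refine (ENNReal.tsum_le_tsum fun n => mul_le_mul_right (h2 n) _).trans (le_of_eq ?_)
  rw [tsum_wt_mul_pow _ _ (ENNReal.mul_ne_top hz (measure_ne_top _ _)), ENNReal.toReal_mul,
    Measure.restrict_apply_univ]
  congr 2
  ring

end Pool.Agent.Lib.MP_0d9445_pr.PPP
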